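import Mathlib

/-! # Quadratic forms dominated through nonnegative cosine polynomials -/

set_option autoImplicit false

open Filter Topology MeasureTheory Finset

namespace Pool.Agent.E8helper56.RG

/-- `cos (2 π k θ)` -/
noncomputable def cs (k : ℤ) (θ : ℝ) : ℝ := Real.cos (2 * Real.pi * k * θ)

lemma cs_neg (k : ℤ) (θ : ℝ) : cs (-k) θ = cs k θ := by
  unfold cs
  push_cast
  rw [← Real.cos_neg]
  congr 1
  ring

lemma cs_continuous (k : ℤ) : Continuous (cs k) := by
  unfold cs
  fun_prop

lemma cs_add_int (k m : ℤ) (θ : ℝ) : cs k (θ + m) = cs k θ := by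
  unfold cs
  have : 2 * Real.pi * k * (θ + m) = 2 * Real.pi * k * θ + ((k * m : ℤ) : ℝ) * (2 * Real.pi) := by
    push_cast; ring
  rw [this, Real.cos_add_int_mul_two_pi]

lemma cs_neg_right (k : ℤ) (θ : ℝ) : cs k (-θ) = cs k θ := by
  unfold cs
  rw [← Real.cos_neg]
  congr 1
  ring

lemma int_cs (k : ℤ) : ∫ θ in (0 : ℝ)..1, cs k θ = if k = 0 then 1 else 0 := by
  split_ifs with h
  · subst h
    simp [cs]
  · unfold cs
    have h1 : (2 * Real.pi * (k : ℝ)) ≠ 0 := by
      have : (k : ℝ) ≠ 0 := by exact_mod_cast h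
      have := Real.pi_ne_zero
      positivity
    rw [intervalIntegral.integral_comp_mul_left (fun x => Real.cos x) h1]
    rw [integral_cos]
    have : Real.sin (2 * Real.pi * (k : ℝ) * 1) = 0 := by
      rw [mul_one, mul_comm]
      have := Real.sin_int_mul_pi (2 * k)
      push_cast at this
      rw [← this]
      congr 1
      ring
    rw [this]
    simp

lemma cs_mul (a b : ℤ) (θ : ℝ) : cs a θ * cs b θ = (cs (a + b) θ + cs (a - b) θ) / 2 := by
  unfold cs
  push_cast
  have h1 : 2 * Real.pi * ((a : ℝ) + b) * θ = 2 * Real.pi * a * θ + 2 * Real.pi * b * θ := by ring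
  have h2 : 2 * Real.pi * ((a : ℝ) - b) * θ = 2 * Real.pi * a * θ - 2 * Real.pi * b * θ := by ring
  rw [h1, h2, Real.cos_add, Real.cos_sub]
  ring

lemma int_cs_mul (a b : ℤ) : ∫ θ in (0 : ℝ)..1, cs a θ * cs b θ =
    ((if a = -b then 1 else 0) + (if a = b then 1 else 0)) / 2 := by
  simp only [cs_mul]
  rw [intervalIntegral.integral_div, intervalIntegral.integral_add
    ((cs_continuous _).intervalIntegrable _ _) ((cs_continuous _).intervalIntegrable _ _),
    int_cs, int_cs]
  congr 3
  · simp [add_eq_zero_iff_eq_neg]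
  · simp [sub_eq_zero]

lemma sum_cs_nonneg (T : Finset ℤ) (X : ℤ → ℝ) (θ : ℝ) :
    0 ≤ ∑ n ∈ T, ∑ m ∈ T, X n * X m * cs (n - m) θ := by
  have h : ∑ n ∈ T, ∑ m ∈ T, X n * X m * cs (n - m) θ =
      (∑ n ∈ T, X n * Real.cos (2 * Real.pi * n * θ)) ^ 2 +
      (∑ n ∈ T, X n * Real.sin (2 * Real.pi * n * θ)) ^ 2 := by
    rw [sq, sq, Finset.sum_mul_sum, Finset.sum_mul_sum, ← Finset.sum_add_distrib]
    refine Finset.sum_congr rfl fun n _ => ?_
    rw [← Finset.sum_add_distrib]
    refine Finset.sum_congr rfl fun m _ => ?_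
    unfold cs
    push_cast
    have h2 : 2 * Real.pi * ((n : ℝ) - m) * θ = 2 * Real.pi * n * θ - 2 * Real.pi * m * θ := by
      ring
    rw [h2, Real.cos_sub]
    ring
  rw [h]
  positivity

/-- an even, finitely supported sequence with nonnegative cosine polynomial is positive
definite -/
lemma pd_of_nonneg (S : Finset ℤ) (q : ℤ → ℝ) (hS : ∀ k, k ∉ S → q k = 0)
    (hev : ∀ k, q (-k) = q k) (hq : ∀ θ : ℝ, 0 ≤ ∑ k ∈ S, q k * cs k θ)
    (T : Finset ℤ) (X : ℤ → ℝ) : 0 ≤ ∑ n ∈ T, ∑ m ∈ T, q (n - m) * (X n * X m) := by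
  have h1 : 0 ≤ ∫ θ in (0 : ℝ)..1, (∑ n ∈ T, ∑ m ∈ T, X n * X m * cs (n - m) θ) *
      ∑ k ∈ S, q k * cs k θ := by
    apply intervalIntegral.integral_nonneg (by norm_num)
    intro θ _
    exact mul_nonneg (sum_cs_nonneg T X θ) (hq θ)
  have h2 : ∫ θ in (0 : ℝ)..1, (∑ n ∈ T, ∑ m ∈ T, X n * X m * cs (n - m) θ) *
      ∑ k ∈ S, q k * cs k θ = ∑ n ∈ T, ∑ m ∈ T, q (n - m) * (X n * X m) := by
    have e : ∀ θ : ℝ, (∑ n ∈ T, ∑ m ∈ T, X n * X m * cs (n - m) θ) * ∑ k ∈ S, q k * cs k θ =
        ∑ n ∈ T, ∑ m ∈ T, ∑ k ∈ S, X n * X m * q k * (cs (n - m) θ * cs k θ) := by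
      intro θ
      rw [Finset.sum_mul]
      refine Finset.sum_congr rfl fun n _ => ?_
      rw [Finset.sum_mul]
      refine Finset.sum_congr rfl fun m _ => ?_
      rw [Finset.mul_sum]
      refine Finset.sum_congr rfl fun k _ => ?_
      ring
    simp only [e]
    have hc : ∀ n m k : ℤ, Continuous fun θ : ℝ => X n * X m * q k * (cs (n - m) θ * cs k θ) :=
      fun n m k => continuous_const.mul ((cs_continuous _).mul (cs_continuous _))
    rw [intervalIntegral.integral_finsetSum]
    swap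
    · intro n _
      apply Continuous.intervalIntegrable
      exact continuous_finsetSum _ fun m _ => continuous_finsetSum _ fun k _ => hc n m k
    refine Finset.sum_congr rfl fun n _ => ?_
    rw [intervalIntegral.integral_finsetSum]
    swap
    · intro m _
      apply Continuous.intervalIntegrable
      exact continuous_finsetSum _ fun k _ => hc n m k
    refine Finset.sum_congr rfl fun m _ => ?_
    rw [intervalIntegral.integral_finsetSum]
    swap
    · intro k _
      exact (hc n m k).intervalIntegrable _ _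
    have e2 : ∀ k ∈ S, (∫ θ in (0 : ℝ)..1, X n * X m * q k * (cs (n - m) θ * cs k θ)) =
        X n * X m / 2 * (if -(n - m) = k then q k else 0) +
        X n * X m / 2 * (if (n - m) = k then q k else 0) := by
      intro k _
      rw [intervalIntegral.integral_const_mul, int_cs_mul]
      have : (n - m = -k) ↔ (-(n - m) = k) := by constructor <;> intro h <;> omega
      simp only [this]
      split_ifs <;> ring
    rw [Finset.sum_congr rfl e2, Finset.sum_add_distrib, ← Finset.mul_sum, ← Finset.mul_sum,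
      Finset.sum_ite_eq, Finset.sum_ite_eq]
    have e3 : ∀ z : ℤ, (if z ∈ S then q z else 0) = q z := by
      intro z
      split_ifs with h
      · rfl
      · exact (hS z h).symm
    rw [e3, e3, hev]
    ring
  rw [h2] at h1
  exact h1

end Pool.Agent.E8helper56.RG
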