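import Pool.Agent.E8helper56.RG.Dom

/-! # Domination of filtered sums of squares -/

set_option autoImplicit false

open Filter Topology MeasureTheory Finset

namespace Pool.Agent.E8helper56.RG

/-- autocorrelation of a finite real filter -/
noncomputable def acor (A : Finset ℤ) (a : ℤ → ℝ) (d : ℤ) : ℝ :=
  ∑ j ∈ A, ∑ k ∈ A, if j - k = d then a j * a k else 0

lemma acor_neg (A : Finset ℤ) (a : ℤ → ℝ) (d : ℤ) : acor A a (-d) = acor A a d := by
  unfold acor
  rw [Finset.sum_comm]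
  refine Finset.sum_congr rfl fun j _ => Finset.sum_congr rfl fun k _ => ?_
  have : (k - j = -d) ↔ (j - k = d) := by constructor <;> intro h <;> omega
  simp only [this]
  split_ifs <;> ring

lemma sum_acor (A : Finset ℤ) (a : ℤ → ℝ) (S : Finset ℤ) (hS : ∀ j ∈ A, ∀ k ∈ A, j - k ∈ S)
    (θ : ℝ) : ∑ d ∈ S, acor A a d * cs d θ = ∑ j ∈ A, ∑ k ∈ A, a j * a k * cs (j - k) θ := by
  unfold acor
  simp only [Finset.sum_mul]
  rw [Finset.sum_comm]
  refine Finset.sum_congr rfl fun j hj => ?_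
  rw [Finset.sum_comm]
  refine Finset.sum_congr rfl fun k hk => ?_
  simp only [ite_mul, zero_mul]
  rw [Finset.sum_ite_eq, if_pos (hS j hj k hk)]

lemma acor_zero (A : Finset ℤ) (a : ℤ → ℝ) (S : Finset ℤ) (hS : ∀ j ∈ A, ∀ k ∈ A, j - k ∈ S)
    (d : ℤ) (hd : d ∉ S) : acor A a d = 0 := by
  unfold acor
  refine Finset.sum_eq_zero fun j hj => Finset.sum_eq_zero fun k hk => ?_
  rw [if_neg]
  rintro rfl
  exact hd (hS j hj k hk)

lemma sq_le (A T U : Finset ℤ) (a X : ℤ → ℝ) (hX : ∀ n, n ∉ T → X n = 0) :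
    ∑ n ∈ U, (∑ k ∈ A, a k * X (n + k)) ^ 2 ≤
      ∑ p ∈ T, ∑ q ∈ T, acor A a (p - q) * (X p * X q) := by
  classical
  set W : Finset ℤ := U ∪ (T ×ˢ A).image (fun z => z.1 - z.2) with hW
  have h1 : ∑ n ∈ U, (∑ k ∈ A, a k * X (n + k)) ^ 2 ≤
      ∑ n ∈ W, (∑ k ∈ A, a k * X (n + k)) ^ 2 :=
    Finset.sum_le_sum_of_subset_of_nonneg Finset.subset_union_left fun _ _ _ => sq_nonneg _
  refine h1.trans (le_of_eq ?_)
  have h2 : ∀ j ∈ A, ∀ k : ℤ, ∑ n ∈ W, X (n + j) * X (n + k) =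
      ∑ p ∈ T, X p * X (p - j + k) := by
    intro j hj k
    have e1 : ∑ p ∈ T, X p * X (p - j + k) =
        ∑ n ∈ T.image (fun p => p - j), X (n + j) * X (n + k) := by
      rw [Finset.sum_image (fun x _ y _ h => by simpa using h)]
      refine Finset.sum_congr rfl fun p _ => ?_
      rw [sub_add_cancel]
    rw [e1]
    symm
    apply Finset.sum_subset
    · intro n hn
      rw [Finset.mem_image] at hn
      obtain ⟨p, hp, rfl⟩ := hn
      rw [hW, Finset.mem_union]
      right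
      rw [Finset.mem_image]
      exact ⟨(p, j), Finset.mem_product.mpr ⟨hp, hj⟩, rfl⟩
    · intro n _ hn
      rw [hX (n + j), zero_mul]
      intro hcon
      apply hn
      rw [Finset.mem_image]
      exact ⟨n + j, hcon, by ring⟩
  have h3 : ∀ n : ℤ, (∑ k ∈ A, a k * X (n + k)) ^ 2 =
      ∑ j ∈ A, ∑ k ∈ A, a j * a k * (X (n + j) * X (n + k)) := by
    intro n
    rw [sq, Finset.sum_mul_sum]
    refine Finset.sum_congr rfl fun j _ => Finset.sum_congr rfl fun k _ => ?_
    ring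
  simp only [h3]
  rw [Finset.sum_comm]
  have h4 : ∀ j ∈ A, ∑ n ∈ W, ∑ k ∈ A, a j * a k * (X (n + j) * X (n + k)) =
      ∑ k ∈ A, ∑ p ∈ T, a j * a k * (X p * X (p - j + k)) := by
    intro j hj
    rw [Finset.sum_comm]
    refine Finset.sum_congr rfl fun k _ => ?_
    rw [← Finset.mul_sum, h2 j hj k, Finset.mul_sum]
  rw [Finset.sum_congr rfl h4]
  have h5 : ∀ j ∈ A, ∀ k ∈ A, ∑ p ∈ T, a j * a k * (X p * X (p - j + k)) =
      ∑ p ∈ T, ∑ q ∈ T, (if j - k = p - q then a j * a k else 0) * (X p * X q) := by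
    intro j _ k _
    refine Finset.sum_congr rfl fun p _ => ?_
    have e : ∀ q : ℤ, (if j - k = p - q then a j * a k else 0) * (X p * X q) =
        if p - j + k = q then a j * a k * (X p * X q) else 0 := by
      intro q
      have : (j - k = p - q) ↔ (p - j + k = q) := by constructor <;> intro h <;> omega
      simp only [this]
      split_ifs <;> ring
    simp only [e]
    rw [Finset.sum_ite_eq]
    split_ifs with h
    · rfl
    · rw [hX _ h]; ring
  rw [Finset.sum_congr rfl fun j hj => Finset.sum_congr rfl fun k hk => h5 j hj k hk]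
  unfold acor
  simp only [Finset.sum_mul]
  -- reorder the sums
  have e6 : ∀ j : ℤ, ∑ k ∈ A, ∑ p ∈ T, ∑ q ∈ T,
      (if j - k = p - q then a j * a k else 0) * (X p * X q) =
      ∑ p ∈ T, ∑ q ∈ T, ∑ k ∈ A, (if j - k = p - q then a j * a k else 0) * (X p * X q) := by
    intro j
    rw [Finset.sum_comm]
    refine Finset.sum_congr rfl fun p _ => ?_
    rw [Finset.sum_comm]
  refine (Finset.sum_congr rfl fun j _ => e6 j).trans ?_
  rw [Finset.sum_comm]
  refine Finset.sum_congr rfl fun p _ => ?_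
  rw [Finset.sum_comm]

/-- domination -/
lemma dom (A : Finset ℤ) (a : ℤ → ℝ) (Rs : Finset ℕ) (w : ℕ → ℝ) (g : ℕ → ℤ → ℝ) (B : Finset ℤ)
    (hB : ∀ r ∈ Rs, ∀ k, k ∉ B → g r k = 0) (hev : ∀ r k, g r (-k) = g r k)
    (h : ∀ θ : ℝ, ∑ j ∈ A, ∑ k ∈ A, a j * a k * cs (j - k) θ ≤
      ∑ r ∈ Rs, w r * ∑ k ∈ B, g r k * cs k θ)
    (T U : Finset ℤ) (X : ℤ → ℝ) (hX : ∀ n, n ∉ T → X n = 0) :
    ∑ n ∈ U, (∑ k ∈ A, a k * X (n + k)) ^ 2 ≤
      ∑ r ∈ Rs, w r * ∑ p ∈ T, ∑ q ∈ T, g r (p - q) * (X p * X q) := by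
  classical
  refine (sq_le A T U a X hX).trans ?_
  set S : Finset ℤ := B ∪ (A ×ˢ A).image (fun z => z.1 - z.2) with hS
  have hSA : ∀ j ∈ A, ∀ k ∈ A, j - k ∈ S := by
    intro j hj k hk
    rw [hS, Finset.mem_union]
    right
    rw [Finset.mem_image]
    exact ⟨(j, k), Finset.mem_product.mpr ⟨hj, hk⟩, rfl⟩
  have hSB : B ⊆ S := Finset.subset_union_left
  have h1 := pd_of_nonneg S (fun k => (∑ r ∈ Rs, w r * g r k) - acor A a k)
    (by
      intro k hk
      rw [acor_zero A a S hSA k hk, sub_zero]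
      apply Finset.sum_eq_zero
      intro r hr
      rw [hB r hr k (fun hc => hk (hSB hc)), mul_zero])
    (by
      intro k
      simp only [hev, acor_neg])
    (by
      intro θ
      have e1 : ∑ k ∈ S, ((∑ r ∈ Rs, w r * g r k) - acor A a k) * cs k θ =
          ∑ r ∈ Rs, w r * ∑ k ∈ B, g r k * cs k θ -
          ∑ j ∈ A, ∑ k ∈ A, a j * a k * cs (j - k) θ := by
        rw [← sum_acor A a S hSA θ, ]
        simp only [sub_mul, Finset.sum_sub_distrib, Finset.sum_mul]
        congr 1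
        rw [Finset.sum_comm]
        refine Finset.sum_congr rfl fun r hr => ?_
        rw [Finset.mul_sum, ← Finset.sum_subset hSB]
        · refine Finset.sum_congr rfl fun k _ => ?_
          ring
        · intro k _ hk
          rw [hB r hr k hk]
          ring
      rw [e1]
      linarith [h θ])
    T X
  have e2 : ∑ n ∈ T, ∑ m ∈ T, ((∑ r ∈ Rs, w r * g r (n - m)) - acor A a (n - m)) * (X n * X m) =
      ∑ r ∈ Rs, w r * ∑ p ∈ T, ∑ q ∈ T, g r (p - q) * (X p * X q) -
      ∑ p ∈ T, ∑ q ∈ T, acor A a (p - q) * (X p * X q) := by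
    simp only [sub_mul, Finset.sum_sub_distrib, Finset.sum_mul, Finset.mul_sum]
    congr 1
    symm
    rw [Finset.sum_comm]
    refine Finset.sum_congr rfl fun p _ => ?_
    rw [Finset.sum_comm]
    refine Finset.sum_congr rfl fun q _ => ?_
    refine Finset.sum_congr rfl fun r _ => ?_
    ring
  rw [e2] at h1
  linarith

end Pool.Agent.E8helper56.RG
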