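import Pool.Agent.E8helper56.RG.Dom
import Pool.Agent.E8helper70.Dys.Cor

/-! # The smooth positive definite kernel -/

set_option autoImplicit false

open Filter Topology MeasureTheory Finset
open scoped ContDiff Convolution

namespace Pool.Agent.E8helper56.RG

/-- the bump -/
noncomputable def bp : ContDiffBump (0 : ℝ) := ⟨1 / 32, 1 / 16, by norm_num, by norm_num⟩

/-- the kernel `ψ ⋆ ψ` -/
noncomputable def GK (x : ℝ) : ℝ := ∫ t, bp t * bp (x - t)

lemma GK_eq : GK = (bp ⋆[ContinuousLinearMap.mul ℝ ℝ, volume] bp) := by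
  funext x
  simp only [GK, MeasureTheory.convolution_def, ContinuousLinearMap.mul_apply']

lemma bp_cont : Continuous (bp : ℝ → ℝ) := bp.continuous

lemma bp_cs : HasCompactSupport (bp : ℝ → ℝ) := bp.hasCompactSupport

lemma GK_cd : ContDiff ℝ ∞ GK := by
  rw [GK_eq]
  exact bp_cs.contDiff_convolution_right _ bp_cont.locallyIntegrable bp.contDiff

lemma GK_cs : HasCompactSupport GK := by
  rw [GK_eq]
  exact bp_cs.convolution _ bp_cs

lemma GK_even (x : ℝ) : GK (-x) = GK x := by
  unfold GK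
  rw [← integral_neg_eq_self]
  congr 1
  funext t
  rw [bp.neg, ← bp.neg (-x - -t)]
  congr 2
  ring

lemma GK_nonneg (x : ℝ) : 0 ≤ GK x :=
  integral_nonneg fun _ => mul_nonneg bp.nonneg bp.nonneg

lemma bp_zero {t : ℝ} (h : 1 / 16 ≤ |t|) : bp t = 0 := by
  apply bp.zero_of_le_dist
  rw [Real.dist_eq, sub_zero]
  exact h

lemma GK_zero {x : ℝ} (h : 1 / 8 < |x|) : GK x = 0 := by
  unfold GK
  have : (fun t => bp t * bp (x - t)) = fun _ => 0 := by
    funext t
    by_cases h1 : 1 / 16 ≤ |t|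
    · rw [bp_zero h1, zero_mul]
    · rw [bp_zero (t := x - t), mul_zero]
      push Not at h1
      have := abs_add_le (x - t) t
      rw [sub_add_cancel] at this
      linarith
  rw [this]
  simp

lemma bp_one {t : ℝ} (h : |t| ≤ 1 / 32) : bp t = 1 := by
  apply bp.one_of_mem_closedBall
  rw [Metric.mem_closedBall, Real.dist_eq, sub_zero]
  exact h

lemma int_prod (x y : ℝ) : Integrable fun t => bp (x - t) * bp (y - t) := by
  apply Continuous.integrable_of_hasCompactSupport
  · exact (bp_cont.comp (by fun_prop)).mul (bp_cont.comp (by fun_prop))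
  · apply HasCompactSupport.of_support_subset_isCompact (isCompact_Icc (a := x - 1) (b := x + 1))
    intro t ht
    rw [Function.mem_support] at ht
    by_contra hcon
    apply ht
    rw [bp_zero (t := x - t), zero_mul]
    rw [Set.mem_Icc, not_and_or, not_le, not_le] at hcon
    rcases hcon with h | h
    · rw [abs_of_pos (by linarith)]; linarith
    · rw [abs_of_neg (by linarith)]; linarith

lemma GK_pos {x : ℝ} (h : |x| ≤ 1 / 64) : 1 / 32 ≤ GK x := by
  unfold GK
  have h1 : ∫ t in Set.Icc (-(1 / 64) : ℝ) (1 / 64), (1 : ℝ) ≤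
      ∫ t in Set.Icc (-(1 / 64) : ℝ) (1 / 64), bp t * bp (x - t) := by
    apply setIntegral_mono_on
    · simp
    · have := int_prod 0 x
      simp only [zero_sub, bp.neg] at this
      exact this.integrableOn
    · exact measurableSet_Icc
    · intro t ht
      have h2 : |t| ≤ 1 / 64 := abs_le.mpr ht
      rw [bp_one (by linarith), bp_one (t := x - t) (by
        refine (abs_sub _ _).trans ?_
        linarith)]
      norm_num
  have h3 : ∫ t in Set.Icc (-(1 / 64) : ℝ) (1 / 64), bp t * bp (x - t) ≤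
      ∫ t, bp t * bp (x - t) := by
    apply setIntegral_le_integral
    · have := int_prod 0 x
      simp only [zero_sub, bp.neg] at this
      exact this
    · exact Eventually.of_forall fun t => mul_nonneg bp.nonneg bp.nonneg
  refine le_trans ?_ (h1.trans h3)
  rw [setIntegral_const]
  simp
  norm_num

lemma GK_shift (x y : ℝ) : GK (x - y) = ∫ u, bp (x - u) * bp (y - u) := by
  unfold GK
  rw [← integral_sub_left_eq_self (fun t => bp t * bp (x - y - t)) volume x]
  congr 1
  funext u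
  congr 1
  rw [← bp.neg (y - u)]
  congr 1
  ring

lemma GK_pd (T : Finset ℕ) (z : ℕ → ℝ) (R : ℝ) :
    0 ≤ ∑ j ∈ T, ∑ k ∈ T, GK (((j : ℝ) - k) / R) * (z j * z k) := by
  have h1 : ∑ j ∈ T, ∑ k ∈ T, GK (((j : ℝ) - k) / R) * (z j * z k) =
      ∫ u, (∑ j ∈ T, z j * bp ((j : ℝ) / R - u)) ^ 2 := by
    have e1 : ∀ u : ℝ, (∑ j ∈ T, z j * bp ((j : ℝ) / R - u)) ^ 2 =
        ∑ j ∈ T, ∑ k ∈ T, (z j * z k) * (bp ((j : ℝ) / R - u) * bp ((k : ℝ) / R - u)) := by
      intro u
      rw [sq, Finset.sum_mul_sum]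
      refine Finset.sum_congr rfl fun j _ => Finset.sum_congr rfl fun k _ => ?_
      ring
    simp only [e1]
    rw [integral_finsetSum]
    swap
    · intro j _
      exact integrable_finsetSum _ fun k _ => (int_prod _ _).const_mul _
    refine Finset.sum_congr rfl fun j _ => ?_
    rw [integral_finsetSum]
    swap
    · intro k _
      exact (int_prod _ _).const_mul _
    refine Finset.sum_congr rfl fun k _ => ?_
    rw [integral_const_mul, sub_div, GK_shift, mul_comm]
  rw [h1]
  exact integral_nonneg fun _ => sq_nonneg _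

/-- the kernel at scale `2 ^ (r + 1)` -/
noncomputable def gk (r : ℕ) (k : ℤ) : ℝ := GK ((k : ℝ) / 2 ^ (r + 1))

lemma gk_even (r : ℕ) (k : ℤ) : gk r (-k) = gk r k := by
  unfold gk
  push_cast
  rw [neg_div, GK_even]

lemma gk_nonneg (r : ℕ) (k : ℤ) : 0 ≤ gk r k := GK_nonneg _

lemma gk_zero (r : ℕ) {k : ℤ} (h : (2 : ℤ) ^ r < |k|) : gk r k = 0 := by
  apply GK_zero
  rw [abs_div, abs_of_pos (by positivity : (0 : ℝ) < 2 ^ (r + 1)), lt_div_iff₀ (by positivity)]
  have h1 : (2 : ℝ) ^ r < |(k : ℝ)| := by exact_mod_cast h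
  have : (0 : ℝ) < 2 ^ r := by positivity
  rw [pow_succ]
  linarith

/-- partial double sums of an even sequence -/
lemma toep (F : ℤ → ℝ) (hev : ∀ k, F (-k) = F k) (D : ℕ) (hz : ∀ k : ℤ, (D : ℤ) < |k| → F k = 0)
    (n : ℕ) : ∑ j ∈ range (D + n), ∑ k ∈ range (D + n), F ((j : ℤ) - k) =
      ∑ j ∈ range D, ∑ k ∈ range D, F ((j : ℤ) - k) + n * ∑ k ∈ Icc (-(D : ℤ)) D, F k := by
  induction n with
  | zero => simp
  | succ n ih =>
    rw [← add_assoc, Finset.sum_range_succ]
    simp only [Finset.sum_range_succ, Finset.sum_add_distrib]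
    rw [ih, E8helper70.Dys.sum_int_even F hev]
    have h1 : ∑ k ∈ range (D + n), F ((k : ℤ) - (D + n : ℕ)) = ∑ k ∈ Icc 1 D, F (k : ℤ) := by
      have h2 : ∑ k ∈ Icc 1 D, F (k : ℤ) = ∑ k ∈ Icc 1 (D + n), F (k : ℤ) := by
        apply Finset.sum_subset
        · apply Finset.Icc_subset_Icc le_rfl; omega
        · intro k hk hk2
          rw [Finset.mem_Icc] at hk hk2
          apply hz
          rw [Nat.abs_cast]
          have : D < k := by omega
          exact_mod_cast this
      rw [h2]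
      apply Finset.sum_nbij' (fun k => D + n - k) (fun k => D + n - k)
      · intro k hk
        rw [Finset.mem_range] at hk
        rw [Finset.mem_Icc]
        omega
      · intro k hk
        rw [Finset.mem_Icc] at hk
        rw [Finset.mem_range]
        omega
      · intro k hk
        rw [Finset.mem_range] at hk
        omega
      · intro k hk
        rw [Finset.mem_Icc] at hk
        omega
      · intro k hk
        rw [Finset.mem_range] at hk
        rw [← hev]
        congr 1
        omega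
    have h3 : ∑ k ∈ range (D + n), F (((D + n : ℕ) : ℤ) - k) =
        ∑ k ∈ range (D + n), F ((k : ℤ) - (D + n : ℕ)) := by
      refine Finset.sum_congr rfl fun k _ => ?_
      rw [← hev]
      congr 1
      ring
    rw [h3, h1]
    push_cast
    simp only [sub_self]
    ring

lemma P_nonneg (r : ℕ) (D : ℕ) (hD : 2 ^ r ≤ D) (θ : ℝ) :
    0 ≤ ∑ k ∈ Icc (-(D : ℤ)) D, gk r k * cs k θ := by
  by_contra hneg
  push Not at hneg
  set F : ℤ → ℝ := fun k => gk r k * cs k θ with hF
  have hev : ∀ k, F (-k) = F k := by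
    intro k
    simp only [hF, gk_even, cs_neg]
  have hz : ∀ k : ℤ, (D : ℤ) < |k| → F k = 0 := by
    intro k hk
    simp only [hF]
    rw [gk_zero r, zero_mul]
    have : (2 : ℤ) ^ r ≤ D := by exact_mod_cast hD
    omega
  obtain ⟨P, hP⟩ : ∃ P : ℝ, P = ∑ k ∈ Icc (-(D : ℤ)) D, gk r k * cs k θ := ⟨_, rfl⟩
  obtain ⟨S, hS⟩ : ∃ S : ℝ, S = ∑ j ∈ range D, ∑ k ∈ range D, F ((j : ℤ) - k) := ⟨_, rfl⟩
  have hpd : ∀ M : ℕ, 0 ≤ ∑ j ∈ range M, ∑ k ∈ range M, F ((j : ℤ) - k) := by
    intro M
    have h1 := GK_pd (range M) (fun j => Real.cos (2 * Real.pi * j * θ)) (2 ^ (r + 1))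
    have h2 := GK_pd (range M) (fun j => Real.sin (2 * Real.pi * j * θ)) (2 ^ (r + 1))
    have h3 : ∑ j ∈ range M, ∑ k ∈ range M, F ((j : ℤ) - k) =
        ∑ j ∈ range M, ∑ k ∈ range M, GK (((j : ℝ) - k) / 2 ^ (r + 1)) *
          (Real.cos (2 * Real.pi * j * θ) * Real.cos (2 * Real.pi * k * θ)) +
        ∑ j ∈ range M, ∑ k ∈ range M, GK (((j : ℝ) - k) / 2 ^ (r + 1)) *
          (Real.sin (2 * Real.pi * j * θ) * Real.sin (2 * Real.pi * k * θ)) := by
      rw [← Finset.sum_add_distrib]
      refine Finset.sum_congr rfl fun j _ => ?_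
      rw [← Finset.sum_add_distrib]
      refine Finset.sum_congr rfl fun k _ => ?_
      simp only [hF, gk, cs]
      push_cast
      have h2 : 2 * Real.pi * ((j : ℝ) - k) * θ = 2 * Real.pi * j * θ - 2 * Real.pi * k * θ := by
        ring
      rw [h2, Real.cos_sub]
      ring
    rw [h3]
    exact add_nonneg h1 h2
  have h4 : ∀ n : ℕ, 0 ≤ S + n * P := by
    intro n
    have h5 := toep F hev D hz n
    have h6 := hpd (D + n)
    rw [h5, ← hS] at h6
    rw [hP]
    exact h6
  rw [← hP] at hneg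
  obtain ⟨n, hn⟩ := exists_nat_gt (S / (-P))
  have h7 := h4 n
  rw [div_lt_iff₀ (by linarith)] at hn
  nlinarith

lemma P_lower (r : ℕ) (D : ℕ) (hD : 2 ^ r ≤ D) (θ : ℝ) (hθ : |θ| ≤ 1 / 2 ^ (r + 1)) :
    2 ^ r / 2048 ≤ ∑ k ∈ Icc (-(D : ℤ)) D, gk r k * cs k θ := by
  have hR : (0 : ℝ) < 2 ^ (r + 1) := by positivity
  obtain ⟨R, hRd⟩ : ∃ R : ℝ, R = 2 ^ (r + 1) := ⟨_, rfl⟩
  have hR0 : 0 < R := by rw [hRd]; exact hR
  set D0 : ℕ := ⌊R / 64⌋₊ with hD0
  have hD0R : (D0 : ℝ) ≤ R / 64 := Nat.floor_le (by positivity)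
  have hD0D : D0 ≤ D := by
    have h1 : (D0 : ℝ) ≤ D := by
      refine hD0R.trans ?_
      have : ((2 ^ r : ℕ) : ℝ) ≤ D := by exact_mod_cast hD
      push_cast at this
      rw [hRd, pow_succ]
      have : (0 : ℝ) < 2 ^ r := by positivity
      linarith
    exact_mod_cast h1
  have hterm : ∀ k : ℤ, 1 / 2 * gk r k ≤ gk r k * cs k θ := by
    intro k
    by_cases h : 1 / 8 < |(k : ℝ) / 2 ^ (r + 1)|
    · have : gk r k = 0 := GK_zero h
      rw [this]; simp
    · push Not at h
      have h1 : |(k : ℝ)| ≤ 2 ^ (r + 1) / 8 := by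
        rw [abs_div, abs_of_pos hR, div_le_iff₀ hR] at h
        linarith
      have h2 : |2 * Real.pi * k * θ| ≤ Real.pi / 3 := by
        have hpi := Real.pi_pos
        rw [abs_mul, abs_mul, abs_of_pos (by positivity : 0 < 2 * Real.pi)]
        calc 2 * Real.pi * |(k : ℝ)| * |θ| ≤ 2 * Real.pi * (2 ^ (r + 1) / 8) * (1 / 2 ^ (r + 1)) := by
              gcongr
          _ = Real.pi / 4 := by field_simp; ring
          _ ≤ Real.pi / 3 := by linarith
      have h3 : 1 / 2 ≤ cs k θ := by
        unfold cs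
        rw [← Real.cos_abs (2 * Real.pi * k * θ), ← Real.cos_pi_div_three]
        apply Real.cos_le_cos_of_nonneg_of_le_pi (abs_nonneg _) _ h2
        have hpi := Real.pi_pos
        linarith
      have := gk_nonneg r k
      nlinarith
  calc (2 : ℝ) ^ r / 2048 ≤ ∑ k ∈ Icc (-(D0 : ℤ)) D0, (1 / 64 : ℝ) := by
        rw [Finset.sum_const, Int.card_Icc, nsmul_eq_mul]
        have h1 : ((D0 : ℤ) + 1 - -(D0 : ℤ)).toNat = 2 * D0 + 1 := by omega
        rw [h1]
        push_cast
        have h2 : R / 64 < D0 + 1 := Nat.lt_floor_add_one _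
        have h3 : (0 : ℝ) ≤ D0 := Nat.cast_nonneg _
        have h4 : (2 : ℝ) ^ r = R / 2 := by rw [hRd, pow_succ]; ring
        rw [h4]
        linarith
    _ ≤ ∑ k ∈ Icc (-(D0 : ℤ)) D0, gk r k * cs k θ := by
        apply Finset.sum_le_sum
        intro k hk
        refine le_trans ?_ (hterm k)
        rw [Finset.mem_Icc] at hk
        have h1 : |(k : ℝ)| ≤ D0 := by
          rw [abs_le]
          exact_mod_cast hk
        have h2 : 1 / 32 ≤ gk r k := by
          apply GK_pos
          rw [abs_div, abs_of_pos hR, div_le_iff₀ hR, ← hRd]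
          linarith
        linarith
    _ ≤ ∑ k ∈ Icc (-(D : ℤ)) D, gk r k * cs k θ := by
        apply Finset.sum_le_sum_of_subset_of_nonneg
        · apply Finset.Icc_subset_Icc
          · omega
          · omega
        · intro k _ _
          have := hterm k
          have := gk_nonneg r k
          linarith

end Pool.Agent.E8helper56.RG
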