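import Pool.Agent.E8helper56.RG.Ker

/-! # The quadratic forms at dyadic scales -/

set_option autoImplicit false

open Filter Topology MeasureTheory Finset
open scoped ContDiff

namespace Pool.Agent.E8helper56.RG

open Pool.Agent.E8helper70.Dys (Law LG tsum_even)

/-- covariances of a sequence -/
noncomputable def cvx (x : ℕ → ℝ) (N k : ℕ) : ℝ := (1 / N : ℝ) * ∑ n ∈ Icc 1 N, x n * x (n + k)

lemma quad_id (x : ℕ → ℝ) (g : ℤ → ℝ) (hev : ∀ k, g (-k) = g k) (D : ℕ)
    (hz : ∀ k : ℤ, (D : ℤ) < |k| → g k = 0) (N : ℕ) :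
    ∑ p ∈ Icc 1 N, ∑ q ∈ Icc 1 N, g ((p : ℤ) - q) * (x p * x q) =
      g 0 * ∑ p ∈ Icc 1 N, x p * x p +
      2 * ∑ k ∈ Icc 1 D, g k * ∑ p ∈ Icc 1 (N - k), x p * x (p + k) := by
  induction N with
  | zero => simp
  | succ N ih =>
    rw [Finset.sum_Icc_succ_top (by omega)]
    simp only [Finset.sum_Icc_succ_top (show 1 ≤ N + 1 by omega)]
    rw [Finset.sum_add_distrib, ih]
    have h1 : ∀ k ∈ Icc 1 D, g k * ∑ p ∈ Icc 1 (N + 1 - k), x p * x (p + k) =
        g k * ∑ p ∈ Icc 1 (N - k), x p * x (p + k) +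
        if k ≤ N then g k * (x (N + 1 - k) * x (N + 1)) else 0 := by
      intro k hk
      rw [Finset.mem_Icc] at hk
      split_ifs with h
      · have e : N + 1 - k = (N - k) + 1 := by omega
        rw [e, Finset.sum_Icc_succ_top (by omega), mul_add]
        congr 4
        omega
      · have e1 : N + 1 - k = 0 := by omega
        have e2 : N - k = 0 := by omega
        rw [e1, e2]
        simp
    rw [Finset.sum_congr rfl h1, Finset.sum_add_distrib]
    have h2 : ∑ k ∈ Icc 1 D, (if k ≤ N then g k * (x (N + 1 - k) * x (N + 1)) else 0) =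
        ∑ q ∈ Icc 1 N, g (((N + 1 : ℕ) : ℤ) - q) * (x (N + 1) * x q) := by
      rw [← Finset.sum_filter]
      have h3 : ∑ k ∈ (Icc 1 D).filter (fun k => k ≤ N), g k * (x (N + 1 - k) * x (N + 1)) =
          ∑ k ∈ Icc 1 N, g k * (x (N + 1 - k) * x (N + 1)) := by
        apply Finset.sum_subset
        · intro k hk
          rw [Finset.mem_filter, Finset.mem_Icc] at hk
          rw [Finset.mem_Icc]
          omega
        · intro k hk hk2
          rw [Finset.mem_Icc] at hk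
          rw [Finset.mem_filter, Finset.mem_Icc] at hk2
          rw [hz, zero_mul]
          rw [Nat.abs_cast]
          have : D < k := by omega
          exact_mod_cast this
      rw [h3]
      apply Finset.sum_nbij' (fun k => N + 1 - k) (fun k => N + 1 - k)
      · intro k hk
        rw [Finset.mem_Icc] at hk ⊢
        omega
      · intro k hk
        rw [Finset.mem_Icc] at hk ⊢
        omega
      · intro k hk
        rw [Finset.mem_Icc] at hk
        omega
      · intro k hk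
        rw [Finset.mem_Icc] at hk
        omega
      · intro k hk
        rw [Finset.mem_Icc] at hk
        have e : ((N + 1 : ℕ) : ℤ) - (N + 1 - k : ℕ) = k := by omega
        rw [e]
        ring
    have h4 : ∑ p ∈ Icc 1 N, g ((p : ℤ) - (N + 1 : ℕ)) * (x p * x (N + 1)) =
        ∑ q ∈ Icc 1 N, g (((N + 1 : ℕ) : ℤ) - q) * (x (N + 1) * x q) := by
      refine Finset.sum_congr rfl fun q _ => ?_
      rw [← hev]
      have e : -((q : ℤ) - (N + 1 : ℕ)) = ((N + 1 : ℕ) : ℤ) - q := by ring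
      rw [e]
      ring
    rw [h2, h4]
    simp only [sub_self]
    ring

lemma log_lim : Tendsto (fun y : ℝ => (2 + Real.log y) ^ 2 / y) atTop (𝓝 0) := by
  have h : (fun y : ℝ => (2 + Real.log y) ^ 2) =o[atTop] (fun y : ℝ => y) := by
    have e : (fun y : ℝ => (2 + Real.log y) ^ 2) =
        fun y => (4 : ℝ) + (4 * Real.log y + Real.log y ^ 2) := by
      funext y; ring
    rw [e]
    apply Asymptotics.IsLittleO.add
    · exact Asymptotics.isLittleO_const_id_atTop (4 : ℝ)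
    · apply Asymptotics.IsLittleO.add
      · exact Real.isLittleO_log_id_atTop.const_mul_left 4
      · exact Real.isLittleO_pow_log_id_atTop
  exact h.tendsto_div_nhds_zero

lemma bdry (x : ℕ → ℝ) (C : ℝ) (hC0 : 0 ≤ C) (hC : ∀ n : ℕ, 1 ≤ n → |x n| ≤ C * (1 + Real.log n))
    (k : ℕ) : Tendsto (fun N : ℕ => (1 / N : ℝ) * (∑ p ∈ Icc 1 (N - k), x p * x (p + k) -
      ∑ p ∈ Icc 1 N, x p * x (p + k))) atTop (𝓝 0) := by
  have h1 : Tendsto (fun N : ℕ => k * C ^ 2 * ((2 + Real.log (N : ℝ)) ^ 2 / (N : ℝ))) atTop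
      (𝓝 0) := by
    have := (log_lim.comp tendsto_natCast_atTop_atTop).const_mul (k * C ^ 2)
    rw [mul_zero] at this
    exact this
  apply squeeze_zero_norm' _ h1
  filter_upwards [eventually_ge_atTop (max k 1)] with N hN
  have hk : k ≤ N := (le_max_left _ _).trans hN
  have hN1 : 1 ≤ N := (le_max_right _ _).trans hN
  have hN0 : (0 : ℝ) < N := by exact_mod_cast hN1
  have h2 : ∑ p ∈ Icc 1 N, x p * x (p + k) = ∑ p ∈ Icc 1 (N - k), x p * x (p + k) +
      ∑ p ∈ Ioc (N - k) N, x p * x (p + k) := by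
    have e : Icc 1 N = Icc 1 (N - k) ∪ Ioc (N - k) N := by
      ext p
      simp only [Finset.mem_union, Finset.mem_Icc, Finset.mem_Ioc]
      omega
    rw [e, Finset.sum_union]
    rw [Finset.disjoint_left]
    intro p hp hp2
    rw [Finset.mem_Icc] at hp
    rw [Finset.mem_Ioc] at hp2
    omega
  rw [h2, sub_add_cancel_left, Real.norm_eq_abs, abs_mul, abs_neg,
    abs_of_pos (by positivity : (0 : ℝ) < 1 / N)]
  have hl : 0 ≤ Real.log N := Real.log_natCast_nonneg N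
  have h3 : ∀ p ∈ Ioc (N - k) N, |x p * x (p + k)| ≤ C ^ 2 * (2 + Real.log N) ^ 2 := by
    intro p hp
    rw [Finset.mem_Ioc] at hp
    have hp1 : (1 : ℝ) ≤ p := by
      have : 1 ≤ p := by omega
      exact_mod_cast this
    have hpN : (p : ℝ) ≤ N := by exact_mod_cast hp.2
    have a1 := hC p (by omega)
    have a2 := hC (p + k) (by omega)
    have b1 : Real.log p ≤ Real.log N := Real.log_le_log (by linarith) hpN
    have b2 : Real.log ((p + k : ℕ) : ℝ) ≤ 1 + Real.log N := by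
      have c1 : Real.log ((p + k : ℕ) : ℝ) ≤ Real.log (2 * N) := by
        apply Real.log_le_log
        · push_cast; positivity
        · have : p + k ≤ 2 * N := by omega
          exact_mod_cast this
      rw [Real.log_mul (by norm_num) hN0.ne'] at c1
      have c2 : Real.log 2 ≤ 1 := by
        have := Real.log_two_lt_d9
        linarith
      linarith
    rw [abs_mul]
    calc |x p| * |x (p + k)| ≤ (C * (2 + Real.log N)) * (C * (2 + Real.log N)) := by
          apply mul_le_mul _ _ (abs_nonneg _) (by positivity)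
          · refine a1.trans (mul_le_mul_of_nonneg_left (by linarith) hC0)
          · refine a2.trans (mul_le_mul_of_nonneg_left (by linarith) hC0)
      _ = _ := by ring
  have h4 : |∑ p ∈ Ioc (N - k) N, x p * x (p + k)| ≤ k * (C ^ 2 * (2 + Real.log N) ^ 2) := by
    refine (Finset.abs_sum_le_sum_abs _ _).trans ((Finset.sum_le_sum h3).trans (le_of_eq ?_))
    rw [Finset.sum_const, Nat.card_Ioc, nsmul_eq_mul]
    congr 2
    omega
  calc 1 / (N : ℝ) * |∑ p ∈ Ioc (N - k) N, x p * x (p + k)| ≤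
      1 / (N : ℝ) * (k * (C ^ 2 * (2 + Real.log N) ^ 2)) :=
        mul_le_mul_of_nonneg_left h4 (by positivity)
    _ = _ := by ring

lemma log_sq_le {R : ℝ} (hR : 1 ≤ R) : Real.log R ^ 2 / R ≤ 4 := by
  have hR0 : 0 < R := by linarith
  rw [div_le_iff₀ hR0]
  have h1 := Real.log_sqrt hR0.le
  have h2 : 0 < Real.sqrt R := Real.sqrt_pos.mpr hR0
  have h3 := Real.log_le_sub_one_of_pos h2
  have h4 : 0 ≤ Real.log R := Real.log_nonneg hR
  have h5 : Real.log R ≤ 2 * Real.sqrt R := by linarith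
  have h6 := Real.sq_sqrt hR0.le
  nlinarith

theorem quad_le (x : ℕ → ℝ) (hlaw : Law (cvx x)) (C : ℝ) (hC0 : 0 ≤ C)
    (hC : ∀ n : ℕ, 1 ≤ n → |x n| ≤ C * (1 + Real.log n)) :
    ∃ C0 : ℝ, 0 < C0 ∧ ∀ r : ℕ, ∀ᶠ N : ℕ in atTop,
      ∑ p ∈ Icc 1 N, ∑ q ∈ Icc 1 N, gk r ((p : ℤ) - q) * (x p * x q) ≤ N * (C0 / 2 ^ r) := by
  obtain ⟨C1, hC1, h1⟩ := hlaw GK GK_cd GK_cs GK_even
  refine ⟨|LG GK| + C1 * 4 + 2, by positivity, fun r => ?_⟩
  have hR2 : (2 : ℝ) ≤ 2 ^ (r + 1) := by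
    rw [pow_succ]
    have : (1 : ℝ) ≤ 2 ^ r := one_le_pow₀ (by norm_num)
    linarith
  have hR0 : (0 : ℝ) < 2 ^ (r + 1) := by positivity
  have hev : ∀ k, gk r (-k) = gk r k := gk_even r
  have hz : ∀ k : ℤ, ((2 ^ r : ℕ) : ℤ) < |k| → gk r k = 0 := by
    intro k hk
    apply gk_zero
    exact_mod_cast hk
  have hb : Tendsto (fun N : ℕ => 2 * ∑ k ∈ Icc (1 : ℕ) (2 ^ r), gk r ((k : ℕ) : ℤ) *
      ((1 / N : ℝ) * (∑ p ∈ Icc 1 (N - k), x p * x (p + k) -
        ∑ p ∈ Icc 1 N, x p * x (p + k)))) atTop (𝓝 0) := by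
    have : (0 : ℝ) = 2 * ∑ k ∈ Icc (1 : ℕ) (2 ^ r), gk r ((k : ℕ) : ℤ) * 0 := by simp
    rw [this]
    apply Tendsto.const_mul
    apply tendsto_finsetSum
    intro k _
    exact (bdry x C hC0 hC k).const_mul _
  filter_upwards [h1 (2 ^ (r + 1)) hR2 1 one_pos, eventually_ge_atTop 1,
    hb.eventually_lt_const (show (0 : ℝ) < 1 / 2 ^ r by positivity)] with N hN hN1 hN2
  have hN0 : (0 : ℝ) < N := by exact_mod_cast hN1
  have e1 : ∑' k : ℤ, GK (k / 2 ^ (r + 1)) * cvx x N k.natAbs =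
      gk r 0 * cvx x N 0 + 2 * ∑ k ∈ Icc (1 : ℕ) (2 ^ r), gk r ((k : ℕ) : ℤ) * cvx x N k := by
    have := tsum_even (fun k : ℤ => gk r k * cvx x N k.natAbs) (fun k => by
      simp only [gk_even, Int.natAbs_neg]) (2 ^ r) (fun k hk => by
      simp only [hz k hk, zero_mul])
    simp only [Int.natAbs_natCast, Int.natAbs_zero] at this
    exact this
  rw [e1] at hN
  have h2 : 2 ^ (r + 1) * (gk r 0 * cvx x N 0 +
      2 * ∑ k ∈ Icc (1 : ℕ) (2 ^ r), gk r ((k : ℕ) : ℤ) * cvx x N k) ≤ |LG GK| + C1 * 4 + 1 := by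
    have a1 := le_abs_self (2 ^ (r + 1) * (gk r 0 * cvx x N 0 +
      2 * ∑ k ∈ Icc (1 : ℕ) (2 ^ r), gk r ((k : ℕ) : ℤ) * cvx x N k) - LG GK)
    have a2 : C1 * Real.log (2 ^ (r + 1)) ^ 2 / 2 ^ (r + 1) ≤ C1 * 4 := by
      rw [mul_div_assoc]
      exact mul_le_mul_of_nonneg_left (log_sq_le (by linarith)) hC1.le
    have a3 := le_abs_self (LG GK)
    linarith
  have h3 : gk r 0 * cvx x N 0 + 2 * ∑ k ∈ Icc (1 : ℕ) (2 ^ r), gk r ((k : ℕ) : ℤ) * cvx x N k ≤
      (|LG GK| + C1 * 4 + 1) / 2 ^ r := by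
    have a1 : gk r 0 * cvx x N 0 + 2 * ∑ k ∈ Icc (1 : ℕ) (2 ^ r), gk r ((k : ℕ) : ℤ) * cvx x N k ≤
        (|LG GK| + C1 * 4 + 1) / 2 ^ (r + 1) := by
      rw [le_div_iff₀ hR0, mul_comm]
      exact h2
    refine a1.trans ?_
    apply div_le_div_of_nonneg_left (by positivity) (by positivity)
    exact pow_le_pow_right₀ (by norm_num) (by omega)
  rw [quad_id x (gk r) hev (2 ^ r) hz N]
  have e2 : gk r 0 * ∑ p ∈ Icc 1 N, x p * x p +
      2 * ∑ k ∈ Icc (1 : ℕ) (2 ^ r), gk r ((k : ℕ) : ℤ) * ∑ p ∈ Icc 1 (N - k), x p * x (p + k) =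
      N * ((gk r 0 * cvx x N 0 + 2 * ∑ k ∈ Icc (1 : ℕ) (2 ^ r), gk r ((k : ℕ) : ℤ) * cvx x N k) +
      2 * ∑ k ∈ Icc (1 : ℕ) (2 ^ r), gk r ((k : ℕ) : ℤ) *
      ((1 / N : ℝ) * (∑ p ∈ Icc 1 (N - k), x p * x (p + k) -
        ∑ p ∈ Icc 1 N, x p * x (p + k)))) := by
    unfold cvx
    simp only [add_zero]
    rw [mul_add, mul_add]
    rw [mul_left_comm (N : ℝ) 2, mul_left_comm (N : ℝ) 2, Finset.mul_sum (a := (N : ℝ)),
      Finset.mul_sum (a := (N : ℝ)), add_assoc, ← mul_add, ← Finset.sum_add_distrib]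
    congr 1
    · field_simp
    · congr 1
      refine Finset.sum_congr rfl fun k _ => ?_
      field_simp
      ring
  rw [e2]
  apply mul_le_mul_of_nonneg_left _ hN0.le
  have e3 : (|LG GK| + C1 * 4 + 2) / 2 ^ r = (|LG GK| + C1 * 4 + 1) / 2 ^ r + 1 / 2 ^ r := by
    ring
  rw [e3]
  linarith

end Pool.Agent.E8helper56.RG
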