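import Pool.Agent.E8helper56.RG.Trap
import Pool.Agent.E8helper56.RG.Quad
import Pool.Agent.E8helper56.RG.Dom2

/-! # Rigidity: each run of gaps is determined by the other gaps -/

set_option autoImplicit false

open Filter Topology MeasureTheory Finset
open scoped ContDiff

namespace Pool.Agent.E8helper56.RG

open Pool.Agent.E8helper70.Dys (Law LG tsum_even)

/-- weights -/
noncomputable def wt (s J r : ℕ) : ℝ := 131072 * 2 ^ r * (1 / 4) ^ (s - r) / J ^ 2

lemma cos_dom (m s J D : ℕ) (hm : 1 ≤ m) (hms : m ≤ 2 ^ s) (hJ : 1 ≤ J) (hD : 2 ^ (s + J) ≤ D)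
    (θ : ℝ) :
    ∑ j ∈ Icc (-(D : ℤ)) (D + m), ∑ k ∈ Icc (-(D : ℤ)) (D + m),
      af m s J j * af m s J k * cs (j - k) θ ≤
    ∑ r ∈ range (s + J + 1), wt s J r * ∑ k ∈ Icc (-(D : ℤ)) D, gk r k * cs k θ := by
  have hJ0 : (0 : ℝ) < J := by exact_mod_cast hJ
  -- reduce to `|θ| ≤ 1 / 2`
  suffices h : ∀ θ : ℝ, |θ| ≤ 1 / 2 → ∑ j ∈ Icc (-(D : ℤ)) (D + m), ∑ k ∈ Icc (-(D : ℤ)) (D + m),
      af m s J j * af m s J k * cs (j - k) θ ≤
      ∑ r ∈ range (s + J + 1), wt s J r * ∑ k ∈ Icc (-(D : ℤ)) D, gk r k * cs k θ by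
    have h1 := h (θ - round θ) (abs_sub_round θ)
    have e : ∀ k : ℤ, cs k (θ - round θ) = cs k θ := by
      intro k
      have := cs_add_int k (-round θ) θ
      push_cast at this
      rw [← sub_eq_add_neg] at this
      exact this
    simp only [e] at h1
    exact h1
  intro θ hθ
  rw [norm_sq_sum]
  -- choose the scale
  obtain ⟨r, hr1, hr2, hr3⟩ : ∃ r : ℕ, r ≤ s + J ∧ |θ| ≤ 1 / 2 ^ (r + 1) ∧
      (r = s + J ∨ (1 / 2) ^ (r + 2) < |θ|) := by
    rcases eq_or_ne θ 0 with h0 | h0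
    · refine ⟨s + J, le_rfl, ?_, Or.inl rfl⟩
      rw [h0, abs_zero]
      positivity
    · have hpos : 0 < |θ| := abs_pos.mpr h0
      obtain ⟨n, hn1, hn2⟩ := exists_nat_pow_near_of_lt_one (x := 2 * |θ|) (y := 1 / 2)
        (by positivity) (by linarith) (by norm_num) (by norm_num)
      have hn3 : |θ| ≤ 1 / 2 ^ (n + 1) := by
        rw [one_div, ← inv_pow, ← one_div, pow_succ]
        linarith
      have hn4 : (1 / 2) ^ (n + 2) < |θ| := by
        have : (1 / 2 : ℝ) ^ (n + 2) = (1 / 2) ^ (n + 1) * (1 / 2) := by rw [← pow_succ]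
        rw [this]
        linarith
      rcases le_total n (s + J) with hns | hns
      · exact ⟨n, hns, hn3, Or.inr hn4⟩
      · refine ⟨s + J, le_rfl, hn3.trans ?_, Or.inl rfl⟩
        apply one_div_le_one_div_of_le (by positivity)
        exact pow_le_pow_right₀ (by norm_num) (by omega)
  have h1 := af_hat_le m s J D hm hms hJ hD r hθ hr3
  have hDr : ∀ r' ≤ s + J, 2 ^ r' ≤ D := fun r' h =>
    (Nat.pow_le_pow_right (by norm_num) h).trans hD
  have h2 := P_lower r D (hDr r hr1) θ hr2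
  have hw : ∀ r', 0 ≤ wt s J r' := by
    intro r'
    unfold wt
    positivity
  have h3 : wt s J r * ∑ k ∈ Icc (-(D : ℤ)) D, gk r k * cs k θ ≤
      ∑ r ∈ range (s + J + 1), wt s J r * ∑ k ∈ Icc (-(D : ℤ)) D, gk r k * cs k θ := by
    apply Finset.single_le_sum (f := fun r => wt s J r *
      ∑ k ∈ Icc (-(D : ℤ)) D, gk r k * cs k θ)
    · intro r' hr'
      rw [Finset.mem_range] at hr'
      exact mul_nonneg (hw r') (P_nonneg r' D (hDr r' (by omega)) θ)
    · rw [Finset.mem_range]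
      omega
  refine le_trans ?_ h3
  calc ‖∑ k ∈ Icc (-(D : ℤ)) (D + m), (af m s J k : ℂ) * ee k θ‖ ^ 2 ≤
      (8 * 2 ^ r * (1 / 2) ^ (s - r) / J) ^ 2 := pow_le_pow_left₀ (norm_nonneg _) h1 2
    _ = wt s J r * (2 ^ r / 2048) := by
        unfold wt
        have : (1 / 4 : ℝ) ^ (s - r) = ((1 / 2) ^ (s - r)) ^ 2 := by
          rw [← pow_mul, mul_comm, pow_mul]; norm_num
        rw [this]
        field_simp
        norm_num
    _ ≤ _ := mul_le_mul_of_nonneg_left h2 (hw r)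

lemma sum_wt (s J : ℕ) (hJ : 1 ≤ J) : ∑ r ∈ range (s + J + 1), wt s J r / 2 ^ r ≤
    393216 / J := by
  have hJ0 : (0 : ℝ) < J := by exact_mod_cast hJ
  have hJ1 : (1 : ℝ) ≤ J := by exact_mod_cast hJ
  have h1 : ∀ r, wt s J r / 2 ^ r = 131072 / J ^ 2 * (1 / 4) ^ (s - r) := by
    intro r
    unfold wt
    have : (0 : ℝ) < 2 ^ r := by positivity
    field_simp
  simp only [h1]
  rw [← Finset.mul_sum]
  have h2 : ∑ r ∈ range (s + J + 1), (1 / 4 : ℝ) ^ (s - r) ≤ 3 * J := by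
    have e : range (s + J + 1) = range s ∪ Ico s (s + J + 1) := by
      ext p
      simp only [Finset.mem_union, Finset.mem_range, Finset.mem_Ico]
      omega
    have hd : Disjoint (range s) (Ico s (s + J + 1)) := by
      rw [Finset.disjoint_left]
      intro p hp hp2
      rw [Finset.mem_range] at hp
      rw [Finset.mem_Ico] at hp2
      omega
    rw [e, Finset.sum_union hd]
    have a1 : ∑ r ∈ Ico s (s + J + 1), (1 / 4 : ℝ) ^ (s - r) = J + 1 := by
      rw [Finset.sum_congr rfl (g := fun _ => (1 : ℝ))]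
      · rw [Finset.sum_const, Nat.card_Ico, nsmul_eq_mul, mul_one]
        have : s + J + 1 - s = J + 1 := by omega
        rw [this]
        push_cast
        ring
      · intro r hr
        rw [Finset.mem_Ico] at hr
        rw [Nat.sub_eq_zero_of_le hr.1, pow_zero]
    have a2 : ∀ s : ℕ, ∑ r ∈ range s, (1 / 4 : ℝ) ^ (s - r) ≤ 1 / 3 := by
      intro s
      induction s with
      | zero => simp
      | succ s ih =>
        rw [Finset.sum_range_succ]
        have b1 : ∑ r ∈ range s, (1 / 4 : ℝ) ^ (s + 1 - r) =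
            1 / 4 * ∑ r ∈ range s, (1 / 4 : ℝ) ^ (s - r) := by
          rw [Finset.mul_sum]
          refine Finset.sum_congr rfl fun r hr => ?_
          rw [Finset.mem_range] at hr
          have : s + 1 - r = (s - r) + 1 := by omega
          rw [this, pow_succ]
          ring
        rw [b1]
        have b2 : s + 1 - s = 1 := by omega
        rw [b2]
        linarith
    rw [a1]
    have := a2 s
    linarith
  calc 131072 / (J : ℝ) ^ 2 * ∑ r ∈ range (s + J + 1), (1 / 4 : ℝ) ^ (s - r) ≤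
      131072 / (J : ℝ) ^ 2 * (3 * J) := mul_le_mul_of_nonneg_left h2 (by positivity)
    _ = _ := by field_simp; norm_num

lemma sum_split (F : ℤ → ℝ) (m K : ℕ) :
    ∑ k ∈ Icc (-(K : ℤ)) ((m : ℤ) - 1 + K), F k =
      ∑ i ∈ range m, F (i : ℤ) + ∑ d ∈ Icc 1 K, (F (-(d : ℤ)) + F ((m : ℤ) - 1 + d)) := by
  induction K with
  | zero =>
    simp only [Nat.cast_zero, neg_zero, add_zero]
    have h1 : Icc 1 0 = (∅ : Finset ℕ) := by simp
    rw [h1, Finset.sum_empty, add_zero]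
    apply Finset.sum_nbij' (fun k : ℤ => k.toNat) (fun i : ℕ => (i : ℤ))
    · intro k hk
      rw [Finset.mem_Icc] at hk
      rw [Finset.mem_range]
      omega
    · intro i hi
      rw [Finset.mem_range] at hi
      rw [Finset.mem_Icc]
      omega
    · intro k hk
      rw [Finset.mem_Icc] at hk
      omega
    · intro i hi
      simp
    · intro k hk
      rw [Finset.mem_Icc] at hk
      congr 1
      omega
  | succ K ih =>
    have h1 : Icc (-((K + 1 : ℕ) : ℤ)) ((m : ℤ) - 1 + (K + 1 : ℕ)) =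
        insert (-((K + 1 : ℕ) : ℤ)) (insert ((m : ℤ) - 1 + (K + 1 : ℕ))
          (Icc (-(K : ℤ)) ((m : ℤ) - 1 + K))) := by
      ext p
      simp only [Finset.mem_Icc, Finset.mem_insert]
      push_cast
      omega
    rw [h1, Finset.sum_insert, Finset.sum_insert, ih, Finset.sum_Icc_succ_top (by omega)]
    · ring
    · simp only [Finset.mem_Icc, not_and_or, not_le]
      push_cast
      omega
    · simp only [Finset.mem_insert, Finset.mem_Icc, not_or]
      push_cast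
      constructor
      · omega
      · omega

/-- the coefficients -/
noncomputable def cf (s J d : ℕ) : ℝ := (1 / J : ℝ) * ∑ i ∈ Ico s (s + J),
  ((2 ^ i - d : ℕ) : ℝ) / (2 ^ i : ℕ)

lemma cf_nonneg (s J d : ℕ) : 0 ≤ cf s J d := by
  unfold cf
  exact mul_nonneg (by positivity) (Finset.sum_nonneg fun i _ => by positivity)

lemma cf_le (s J d : ℕ) (hJ : 1 ≤ J) : cf s J d ≤ 1 := by
  unfold cf
  have hJ0 : (0 : ℝ) < J := by exact_mod_cast hJ
  have h1 : ∑ i ∈ Ico s (s + J), ((2 ^ i - d : ℕ) : ℝ) / (2 ^ i : ℕ) ≤ J := by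
    calc ∑ i ∈ Ico s (s + J), ((2 ^ i - d : ℕ) : ℝ) / (2 ^ i : ℕ) ≤
        ∑ i ∈ Ico s (s + J), (1 : ℝ) := by
          apply Finset.sum_le_sum
          intro i _
          apply div_le_one_of_le₀
          · exact_mod_cast Nat.sub_le _ _
          · positivity
      _ = J := by simp
  calc 1 / (J : ℝ) * ∑ i ∈ Ico s (s + J), ((2 ^ i - d : ℕ) : ℝ) / (2 ^ i : ℕ) ≤
      1 / (J : ℝ) * J := mul_le_mul_of_nonneg_left h1 (by positivity)
    _ = 1 := by field_simp

lemma af_mid (m s J : ℕ) (hJ : 1 ≤ J) (k : ℤ) (h0 : 0 ≤ k) (h1 : k < m) : af m s J k = 1 := by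
  unfold af
  have hJ0 : (0 : ℝ) < J := by exact_mod_cast hJ
  rw [Finset.sum_congr rfl fun i _ => tz_mid m (2 ^ i) Nat.one_le_two_pow k h0 h1]
  simp
  field_simp

lemma af_right (m s J d : ℕ) (hd : 1 ≤ d) : af m s J ((m : ℤ) - 1 + d) = cf s J d := by
  unfold af cf
  rw [Finset.sum_congr rfl fun i _ => tz_right m (2 ^ i) d hd]

lemma af_left (m s J d : ℕ) (hm : 1 ≤ m) (hd : 1 ≤ d) : af m s J (-(d : ℤ)) = cf s J d := by
  unfold af cf
  rw [Finset.sum_congr rfl fun i _ => tz_left m (2 ^ i) d hm hd]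

lemma cf_zero (s J d : ℕ) (hd : 2 ^ (s + J) ≤ 2 * d) : cf s J d = 0 := by
  unfold cf
  rw [Finset.sum_eq_zero, mul_zero]
  intro i hi
  rw [Finset.mem_Ico] at hi
  have h1 : 2 ^ i ≤ d := by
    have : 2 ^ (i + 1) ≤ 2 ^ (s + J) := Nat.pow_le_pow_right (by norm_num) (by omega)
    rw [pow_succ] at this
    omega
  rw [Nat.sub_eq_zero_of_le h1]
  simp

/-- the filtered sequence -/
noncomputable def res (x : ℕ → ℝ) (c : ℕ → ℝ) (m K n : ℕ) : ℝ :=
  ∑ i ∈ range m, x (n + i) + ∑ k ∈ Icc 1 K, c k * (x (n - k) + x (n + (m - 1) + k))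

lemma res_eq (x : ℕ → ℝ) (m K s J : ℕ) (hm : 1 ≤ m) (hJ : 1 ≤ J)
    (hK : 2 ^ (s + J) ≤ 2 * (K + 1)) (hK2 : K + 1 < 2 ^ (s + J)) (N n : ℕ) (hn : K < n)
    (hnN : n ≤ N) (X : ℤ → ℝ) (hX : ∀ p : ℕ, 1 ≤ p → p ≤ N + m + K → X p = x p) :
    ∑ k ∈ Icc (-((2 ^ (s + J) : ℕ) : ℤ)) ((2 ^ (s + J) : ℕ) + m), af m s J k * X (n + k) =
      res x (cf s J) m K n := by
  have h1 : ∑ k ∈ Icc (-((2 ^ (s + J) : ℕ) : ℤ)) ((2 ^ (s + J) : ℕ) + m),
      af m s J k * X (n + k) = ∑ k ∈ Icc (-(K : ℤ)) ((m : ℤ) - 1 + K), af m s J k * X (n + k) := by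
    symm
    apply Finset.sum_subset
    · apply Finset.Icc_subset_Icc
      · omega
      · omega
    · intro k hk hk2
      rw [Finset.mem_Icc, not_and_or, not_le, not_le] at hk2
      have : af m s J k = 0 := by
        rcases hk2 with h | h
        · obtain ⟨d, rfl⟩ : ∃ d : ℕ, k = -(d : ℤ) := ⟨k.natAbs, by omega⟩
          have hd : K + 1 ≤ d := by omega
          rw [af_left m s J d hm (by omega)]
          exact cf_zero s J d (by omega)
        · obtain ⟨d, rfl⟩ : ∃ d : ℕ, k = (m : ℤ) - 1 + d := ⟨(k - m + 1).toNat, by omega⟩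
          have hd : K + 1 ≤ d := by omega
          rw [af_right m s J d (by omega)]
          exact cf_zero s J d (by omega)
      rw [this, zero_mul]
  rw [h1, sum_split]
  unfold res
  congr 1
  · refine Finset.sum_congr rfl fun i hi => ?_
    rw [Finset.mem_range] at hi
    rw [af_mid m s J hJ i (by omega) (by omega), one_mul]
    have := hX (n + i) (by omega) (by omega)
    push_cast at this
    exact this
  · refine Finset.sum_congr rfl fun d hd => ?_
    rw [Finset.mem_Icc] at hd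
    rw [af_left m s J d hm hd.1, af_right m s J d hd.1, ← mul_add]
    have e1 := hX (n - d) (by omega) (by omega)
    have e2 := hX (n + (m - 1) + d) (by omega) (by omega)
    have e3 : ((n - d : ℕ) : ℤ) = (n : ℤ) + -(d : ℤ) := by omega
    have e4 : ((n + (m - 1) + d : ℕ) : ℤ) = (n : ℤ) + ((m : ℤ) - 1 + d) := by omega
    rw [e3] at e1
    rw [e4] at e2
    rw [e1, e2]

lemma sum_Icc_int (f : ℤ → ℝ) (a b : ℕ) :
    ∑ p ∈ Icc (a : ℤ) b, f p = ∑ p ∈ Icc a b, f (p : ℤ) := by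
  apply Finset.sum_nbij' (fun k : ℤ => k.toNat) (fun i : ℕ => (i : ℤ))
  · intro k hk
    rw [Finset.mem_Icc] at hk ⊢
    omega
  · intro i hi
    rw [Finset.mem_Icc] at hi ⊢
    omega
  · intro k hk
    rw [Finset.mem_Icc] at hk
    omega
  · intro i hi
    simp
  · intro k hk
    rw [Finset.mem_Icc] at hk
    congr 1
    omega

theorem rigid (x : ℕ → ℝ) (hlaw : Law (cvx x)) (Cg : ℝ) (hCg : 0 ≤ Cg)
    (hgr : ∀ n : ℕ, 1 ≤ n → |x n| ≤ Cg * (1 + Real.log n)) :
    ∃ C : ℝ, 0 < C ∧ ∀ m K : ℕ, 1 ≤ m → 2 * m ≤ K → ∃ c : ℕ → ℝ, (∀ k, 0 ≤ c k ∧ c k ≤ 1) ∧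
      ∀ᶠ N : ℕ in atTop, (1 / N : ℝ) * ∑ n ∈ Ioc K N, res x c m K n ^ 2 ≤
        C / Real.log (K / m) := by
  obtain ⟨C0, hC0, hq⟩ := quad_le x hlaw Cg hCg hgr
  refine ⟨2000000 * C0, by positivity, fun m K hm hK => ?_⟩
  -- the scales
  obtain ⟨s, hs1, hs2⟩ : ∃ s : ℕ, m ≤ 2 ^ s ∧ 2 ^ s < 2 * m := by
    refine ⟨Nat.clog 2 m, Nat.le_pow_clog (by norm_num) m, ?_⟩
    rcases Nat.lt_or_ge 1 m with h | h
    · have := Nat.pow_pred_clog_lt_self (b := 2) (by norm_num) h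
      have h2 : 0 < Nat.clog 2 m := Nat.clog_pos (by norm_num) h
      obtain ⟨t, ht⟩ : ∃ t, Nat.clog 2 m = t + 1 := ⟨Nat.clog 2 m - 1, by omega⟩
      rw [ht] at this ⊢
      simp only [Nat.pred_succ] at this
      rw [pow_succ]
      omega
    · have : m = 1 := by omega
      subst this
      simp
  obtain ⟨u, hu1, hu2⟩ : ∃ u : ℕ, 2 ^ u ≤ K + 1 ∧ K + 1 < 2 ^ (u + 1) :=
    ⟨Nat.log 2 (K + 1), Nat.pow_log_le_self 2 (by omega), Nat.lt_pow_succ_log_self (by norm_num) _⟩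
  have hsu : s ≤ u := by
    by_contra hcon
    push Not at hcon
    have : 2 ^ (u + 1) ≤ 2 ^ s := Nat.pow_le_pow_right (by norm_num) hcon
    omega
  obtain ⟨J, hJ⟩ : ∃ J : ℕ, s + J = u + 1 := ⟨u + 1 - s, by omega⟩
  have hJ1 : 1 ≤ J := by omega
  have hJ0 : (0 : ℝ) < J := by exact_mod_cast hJ1
  have hK1 : 2 ^ (s + J) ≤ 2 * (K + 1) := by rw [hJ, pow_succ]; omega
  have hK2 : K + 1 < 2 ^ (s + J) := by rw [hJ]; exact hu2
  have hm0 : (0 : ℝ) < m := by exact_mod_cast hm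
  -- the size of `J`
  have hKm : (2 : ℝ) ≤ K / m := by
    rw [le_div_iff₀ hm0]
    exact_mod_cast hK
  have hlogpos : 0 < Real.log (K / m) := Real.log_pos (by linarith)
  have hlog : Real.log (K / m) ≤ 2 * J := by
    have h1 : (K : ℝ) / m ≤ 2 ^ (J + 1) := by
      rw [div_le_iff₀ hm0]
      have e1 : K < 2 ^ (s + J) := by omega
      have e2 : 2 ^ (s + J) ≤ 2 ^ (J + 1) * m := by
        rw [pow_add, pow_succ]
        calc 2 ^ s * 2 ^ J ≤ (2 * m) * 2 ^ J := Nat.mul_le_mul_right _ hs2.le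
          _ = _ := by ring
      exact_mod_cast e1.le.trans e2
    have h2 := Real.log_le_log (by linarith) h1
    rw [Real.log_pow] at h2
    have h3 := Real.log_two_lt_d9
    have h4 : (1 : ℝ) ≤ J := by exact_mod_cast hJ1
    have h5 := Real.log_pos (by norm_num : (1 : ℝ) < 2)
    push_cast at h2
    nlinarith
  refine ⟨cf s J, fun k => ⟨cf_nonneg s J k, cf_le s J k hJ1⟩, ?_⟩
  have hev : ∀ᶠ N : ℕ in atTop, ∀ r ∈ range (s + J + 1),
      ∑ p ∈ Icc 1 N, ∑ q ∈ Icc 1 N, gk r ((p : ℤ) - q) * (x p * x q) ≤ N * (C0 / 2 ^ r) := by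
    rw [Filter.eventually_all_finset]
    intro r _
    exact hq r
  have hshift : Tendsto (fun N : ℕ => N + (m + K)) atTop atTop := tendsto_add_atTop_nat _
  filter_upwards [hshift.eventually hev, eventually_ge_atTop (m + K)] with N hN hN1
  have hN0 : (0 : ℝ) < N := by
    have : 0 < N := by omega
    exact_mod_cast this
  set X : ℤ → ℝ := fun p => if 1 ≤ p ∧ p ≤ (N + (m + K) : ℕ) then x p.toNat else 0 with hX
  have hXx : ∀ p : ℕ, 1 ≤ p → p ≤ N + m + K → X p = x p := by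
    intro p h1 h2
    simp only [hX]
    rw [if_pos, Int.toNat_natCast]
    constructor
    · exact_mod_cast h1
    · have : p ≤ N + (m + K) := by omega
      exact_mod_cast this
  have hD : 2 ^ (s + J) ≤ 2 ^ (s + J) := le_rfl
  have hdom := dom (Icc (-((2 ^ (s + J) : ℕ) : ℤ)) ((2 ^ (s + J) : ℕ) + m)) (af m s J)
    (range (s + J + 1)) (wt s J) gk (Icc (-((2 ^ (s + J) : ℕ) : ℤ)) (2 ^ (s + J) : ℕ))
    (by
      intro r hr k hk
      rw [Finset.mem_range] at hr
      rw [Finset.mem_Icc, ← abs_le, not_le] at hk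
      apply gk_zero
      refine lt_of_le_of_lt ?_ hk
      push_cast
      exact pow_le_pow_right₀ (by norm_num) (by omega))
    gk_even (cos_dom m s J (2 ^ (s + J)) hm hs1 hJ1 hD)
    (Icc ((1 : ℕ) : ℤ) (N + (m + K) : ℕ)) (Icc ((K + 1 : ℕ) : ℤ) (N : ℕ)) X
    (by
      intro p hp
      simp only [hX]
      rw [if_neg]
      rw [Finset.mem_Icc] at hp
      exact hp)
  rw [sum_Icc_int] at hdom
  have e1 : ∑ p ∈ Icc (K + 1) N, (∑ k ∈ Icc (-((2 ^ (s + J) : ℕ) : ℤ)) ((2 ^ (s + J) : ℕ) + m),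
      af m s J k * X ((p : ℤ) + k)) ^ 2 = ∑ n ∈ Ioc K N, res x (cf s J) m K n ^ 2 := by
    have e : Ioc K N = Icc (K + 1) N := by
      ext p
      rw [Finset.mem_Ioc, Finset.mem_Icc]
      omega
    rw [e]
    refine Finset.sum_congr rfl fun n hn => ?_
    rw [Finset.mem_Icc] at hn
    rw [res_eq x m K s J hm hJ1 hK1 hK2 N n (by omega) hn.2 X hXx]
  rw [e1] at hdom
  have e2 : ∀ r ∈ range (s + J + 1), wt s J r * ∑ p ∈ Icc ((1 : ℕ) : ℤ) (N + (m + K) : ℕ),
      ∑ q ∈ Icc ((1 : ℕ) : ℤ) (N + (m + K) : ℕ), gk r (p - q) * (X p * X q) ≤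
      (N + (m + K) : ℕ) * C0 * (wt s J r / 2 ^ r) := by
    intro r hr
    have hw : 0 ≤ wt s J r := by
      unfold wt
      positivity
    simp only [sum_Icc_int]
    have e3 : ∑ p ∈ Icc 1 (N + (m + K)), ∑ q ∈ Icc 1 (N + (m + K)),
        gk r ((p : ℤ) - q) * (X p * X q) = ∑ p ∈ Icc 1 (N + (m + K)), ∑ q ∈ Icc 1 (N + (m + K)),
        gk r ((p : ℤ) - q) * (x p * x q) := by
      refine Finset.sum_congr rfl fun p hp => Finset.sum_congr rfl fun q hq => ?_
      rw [Finset.mem_Icc] at hp hq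
      rw [hXx p hp.1 (by omega), hXx q hq.1 (by omega)]
    rw [e3]
    calc wt s J r * _ ≤ wt s J r * ((N + (m + K) : ℕ) * (C0 / 2 ^ r)) :=
          mul_le_mul_of_nonneg_left (hN r hr) hw
      _ = _ := by ring
  have e4 := (hdom.trans (Finset.sum_le_sum e2))
  rw [← Finset.mul_sum] at e4
  have e5 : ((N + (m + K) : ℕ) : ℝ) ≤ 2 * N := by
    have : N + (m + K) ≤ 2 * N := by omega
    exact_mod_cast this
  have e6 : ∑ n ∈ Ioc K N, res x (cf s J) m K n ^ 2 ≤ 2 * N * C0 * (393216 / J) := by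
    refine e4.trans ?_
    apply mul_le_mul _ (sum_wt s J hJ1) _ (by positivity)
    · exact mul_le_mul_of_nonneg_right e5 hC0.le
    · apply Finset.sum_nonneg
      intro r _
      unfold wt
      positivity
  calc 1 / (N : ℝ) * ∑ n ∈ Ioc K N, res x (cf s J) m K n ^ 2 ≤
      1 / (N : ℝ) * (2 * N * C0 * (393216 / J)) := mul_le_mul_of_nonneg_left e6 (by positivity)
    _ = 786432 * C0 / J := by field_simp; norm_num
    _ ≤ 2000000 * C0 / Real.log (K / m) := by
        rw [div_le_div_iff₀ hJ0 hlogpos]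
        nlinarith [mul_le_mul_of_nonneg_left hlog hC0.le]

end Pool.Agent.E8helper56.RG
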