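import Pool.Agent.E8helper56.RG.Ker

/-! # Trapezoidal filters -/

set_option autoImplicit false

open Filter Topology MeasureTheory Finset

namespace Pool.Agent.E8helper56.RG

/-- `exp (2 π i k θ)` -/
noncomputable def ee (k : ℤ) (θ : ℝ) : ℂ :=
  Complex.exp (((2 * Real.pi * k * θ : ℝ) : ℂ) * Complex.I)

lemma ee_add (j k : ℤ) (θ : ℝ) : ee (j + k) θ = ee j θ * ee k θ := by
  unfold ee
  rw [← Complex.exp_add]
  congr 1
  push_cast
  ring

lemma ee_norm (k : ℤ) (θ : ℝ) : ‖ee k θ‖ = 1 := Complex.norm_exp_ofReal_mul_I _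

lemma ee_nat (k : ℕ) (θ : ℝ) : ee k θ = ee 1 θ ^ k := by
  unfold ee
  rw [← Complex.exp_nat_mul]
  congr 1
  push_cast
  ring

lemma ee_re (k : ℤ) (θ : ℝ) : (ee k θ).re = Real.cos (2 * Real.pi * k * θ) := by
  unfold ee
  rw [Complex.exp_ofReal_mul_I_re]

lemma ee_im (k : ℤ) (θ : ℝ) : (ee k θ).im = Real.sin (2 * Real.pi * k * θ) := by
  unfold ee
  rw [Complex.exp_ofReal_mul_I_im]

/-- the squared norm of a trigonometric sum with real coefficients -/
lemma norm_sq_sum (A : Finset ℤ) (a : ℤ → ℝ) (θ : ℝ) :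
    ∑ j ∈ A, ∑ k ∈ A, a j * a k * cs (j - k) θ = ‖∑ k ∈ A, (a k : ℂ) * ee k θ‖ ^ 2 := by
  rw [← Complex.normSq_eq_norm_sq, Complex.normSq_apply]
  simp only [Complex.re_sum, Complex.im_sum, Complex.re_ofReal_mul, Complex.im_ofReal_mul, ee_re,
    ee_im]
  rw [Finset.sum_mul_sum, Finset.sum_mul_sum, ← Finset.sum_add_distrib]
  refine Finset.sum_congr rfl fun j _ => ?_
  rw [← Finset.sum_add_distrib]
  refine Finset.sum_congr rfl fun k _ => ?_
  unfold cs
  push_cast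
  have h2 : 2 * Real.pi * ((j : ℝ) - k) * θ = 2 * Real.pi * j * θ - 2 * Real.pi * k * θ := by
    ring
  rw [h2, Real.cos_sub]
  ring

/-- Dirichlet kernel -/
noncomputable def dk (n : ℕ) (θ : ℝ) : ℂ := ∑ j ∈ range n, ee j θ

lemma dk_le (n : ℕ) (θ : ℝ) : ‖dk n θ‖ ≤ n := by
  unfold dk
  refine (norm_sum_le _ _).trans ?_
  simp [ee_norm]

lemma dk_le' (n : ℕ) {θ : ℝ} (h0 : θ ≠ 0) (h : |θ| ≤ 1 / 2) : ‖dk n θ‖ ≤ 1 / (2 * |θ|) := by
  have hθ : 0 < |θ| := abs_pos.mpr h0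
  have h1 : dk n θ * (ee 1 θ - 1) = ee n θ - 1 := by
    unfold dk
    rw [ee_nat n, ← geom_sum_mul]
    congr 1
    refine Finset.sum_congr rfl fun j _ => ?_
    rw [ee_nat]
  have h2 : ‖ee n θ - 1‖ ≤ 2 := by
    refine (norm_sub_le _ _).trans ?_
    rw [ee_norm, norm_one]
    norm_num
  have h3 : 4 * |θ| ≤ ‖ee 1 θ - 1‖ := by
    have e1 : ee 1 θ = Complex.exp (Complex.I * ((2 * Real.pi * θ : ℝ) : ℂ)) := by
      unfold ee
      congr 1
      push_cast
      ring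
    rw [e1, Complex.norm_exp_I_mul_ofReal_sub_one]
    have e2 : 2 * Real.pi * θ / 2 = Real.pi * θ := by ring
    rw [e2, norm_mul, Real.norm_eq_abs, Real.norm_eq_abs, abs_two]
    have hpi := Real.pi_pos
    have e3 : |Real.pi * θ| ≤ Real.pi / 2 := by
      rw [abs_mul, abs_of_pos hpi]
      nlinarith
    have e4 := Real.mul_abs_le_abs_sin e3
    rw [abs_mul, abs_of_pos hpi] at e4
    have e5 : 2 / Real.pi * (Real.pi * |θ|) = 2 * |θ| := by field_simp
    rw [e5] at e4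
    linarith
  have h4 : ‖dk n θ‖ * ‖ee 1 θ - 1‖ ≤ 2 := by
    rw [← norm_mul, h1]
    exact h2
  rw [le_div_iff₀ (by positivity)]
  have h5 : ‖dk n θ‖ * (4 * |θ|) ≤ 2 :=
    (mul_le_mul_of_nonneg_left h3 (norm_nonneg _)).trans h4
  linarith

/-- the trapezoid, as a count -/
noncomputable def tz (m L : ℕ) (k : ℤ) : ℝ :=
  (1 / L : ℝ) * ∑ p ∈ range L, if (p : ℤ) - L + 1 ≤ k ∧ k ≤ p + m - 1 then 1 else 0

lemma tz_hat (m L D : ℕ) (hm : 1 ≤ m) (hL : 1 ≤ L) (hD : L ≤ D) (θ : ℝ) :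
    ∑ k ∈ Icc (-(D : ℤ)) (D + m), (tz m L k : ℂ) * ee k θ =
      (1 / L : ℂ) * ee (-((L : ℤ) - 1)) θ * (dk L θ * dk (L + m - 1) θ) := by
  have key : ∑ k ∈ Icc (-(D : ℤ)) (D + m), (∑ p ∈ range L,
      if (p : ℤ) - L + 1 ≤ k ∧ k ≤ p + m - 1 then (1 : ℂ) else 0) * ee k θ =
      ee (-((L : ℤ) - 1)) θ * (dk L θ * dk (L + m - 1) θ) := by
    unfold dk
    rw [Finset.sum_mul_sum, Finset.mul_sum]
    have e1 : ∀ k : ℤ, (∑ p ∈ range L,
        if (p : ℤ) - L + 1 ≤ k ∧ k ≤ p + m - 1 then (1 : ℂ) else 0) * ee k θ =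
        ∑ p ∈ range L, if (p : ℤ) - L + 1 ≤ k ∧ k ≤ p + m - 1 then ee k θ else 0 := by
      intro k
      rw [Finset.sum_mul]
      refine Finset.sum_congr rfl fun p _ => ?_
      rw [ite_mul, one_mul, zero_mul]
    simp only [e1]
    rw [Finset.sum_comm]
    refine Finset.sum_congr rfl fun p hp => ?_
    rw [Finset.mem_range] at hp
    rw [Finset.mul_sum, ← Finset.sum_filter]
    symm
    apply Finset.sum_bij (fun (q : ℕ) _ => (p : ℤ) + q - (L - 1))
    · intro q hq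
      rw [Finset.mem_range] at hq
      rw [Finset.mem_filter, Finset.mem_Icc]
      omega
    · intro q1 _ q2 _ h
      omega
    · intro k hk
      rw [Finset.mem_filter, Finset.mem_Icc] at hk
      refine ⟨(k + (L - 1) - p).toNat, ?_, ?_⟩
      · rw [Finset.mem_range]
        omega
      · omega
    · intro q _
      rw [← ee_add, ← ee_add]
      congr 1
      ring
  rw [mul_assoc, ← key, Finset.mul_sum]
  refine Finset.sum_congr rfl fun k _ => ?_
  have e2 : (tz m L k : ℂ) = (1 / L : ℂ) * ∑ p ∈ range L,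
      if (p : ℤ) - L + 1 ≤ k ∧ k ≤ p + m - 1 then (1 : ℂ) else 0 := by
    unfold tz
    rw [Complex.ofReal_mul, Complex.ofReal_sum]
    congr 1
    · push_cast
      rfl
    · refine Finset.sum_congr rfl fun p _ => ?_
      split_ifs <;> simp
  rw [e2, mul_assoc]

lemma tz_hat_le (m L D : ℕ) (hm : 1 ≤ m) (hmL : m ≤ L) (hD : L ≤ D) (θ : ℝ) :
    ‖∑ k ∈ Icc (-(D : ℤ)) (D + m), (tz m L k : ℂ) * ee k θ‖ ≤ 2 * L := by
  have hL : 1 ≤ L := hm.trans hmL
  have hL0 : (0 : ℝ) < L := by exact_mod_cast hL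
  rw [tz_hat m L D hm hL hD, norm_mul, norm_mul, norm_mul, ee_norm, mul_one, norm_div, norm_one,
    Complex.norm_natCast]
  have h1 := dk_le L θ
  have h2 := dk_le (L + m - 1) θ
  have h3 : ((L + m - 1 : ℕ) : ℝ) ≤ 2 * L := by
    have : L + m - 1 ≤ 2 * L := by omega
    exact_mod_cast this
  calc 1 / (L : ℝ) * (‖dk L θ‖ * ‖dk (L + m - 1) θ‖) ≤ 1 / (L : ℝ) * (L * (2 * L)) := by
        apply mul_le_mul_of_nonneg_left _ (by positivity)
        exact mul_le_mul h1 (h2.trans h3) (norm_nonneg _) (by positivity)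
    _ = 2 * L := by field_simp

lemma tz_hat_le' (m L D : ℕ) (hm : 1 ≤ m) (hL : 1 ≤ L) (hD : L ≤ D) {θ : ℝ} (h0 : θ ≠ 0)
    (h : |θ| ≤ 1 / 2) :
    ‖∑ k ∈ Icc (-(D : ℤ)) (D + m), (tz m L k : ℂ) * ee k θ‖ ≤ 1 / (4 * θ ^ 2) / L := by
  have hL0 : (0 : ℝ) < L := by exact_mod_cast hL
  have hθ : 0 < |θ| := abs_pos.mpr h0
  rw [tz_hat m L D hm hL hD, norm_mul, norm_mul, norm_mul, ee_norm, mul_one, norm_div, norm_one,
    Complex.norm_natCast]
  have h1 := dk_le' L h0 h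
  have h2 := dk_le' (L + m - 1) h0 h
  calc 1 / (L : ℝ) * (‖dk L θ‖ * ‖dk (L + m - 1) θ‖) ≤
      1 / (L : ℝ) * (1 / (2 * |θ|) * (1 / (2 * |θ|))) := by
        apply mul_le_mul_of_nonneg_left _ (by positivity)
        exact mul_le_mul h1 h2 (norm_nonneg _) (by positivity)
    _ = 1 / (4 * θ ^ 2) / L := by
        rw [← sq_abs θ]
        field_simp
        norm_num

lemma tz_mid (m L : ℕ) (hL : 1 ≤ L) (k : ℤ) (h0 : 0 ≤ k) (h1 : k < m) : tz m L k = 1 := by
  unfold tz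
  have hL0 : (0 : ℝ) < L := by exact_mod_cast hL
  rw [Finset.sum_congr rfl (g := fun _ => (1 : ℝ))]
  · rw [Finset.sum_const, Finset.card_range, nsmul_eq_mul]
    field_simp
  · intro p hp
    rw [Finset.mem_range] at hp
    rw [if_pos]
    omega

lemma tz_right (m L d : ℕ) (hd : 1 ≤ d) : tz m L ((m : ℤ) - 1 + d) =
    ((L - d : ℕ) : ℝ) / L := by
  unfold tz
  rw [← Finset.sum_filter, Finset.sum_const, nsmul_eq_mul, mul_one]
  have : (range L).filter (fun p : ℕ => (p : ℤ) - L + 1 ≤ (m : ℤ) - 1 + d ∧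
      (m : ℤ) - 1 + d ≤ p + m - 1) = Ico d L := by
    ext p
    rw [Finset.mem_filter, Finset.mem_range, Finset.mem_Ico]
    omega
  rw [this, Nat.card_Ico]
  ring

lemma tz_left (m L d : ℕ) (hm : 1 ≤ m) (hd : 1 ≤ d) : tz m L (-(d : ℤ)) =
    ((L - d : ℕ) : ℝ) / L := by
  unfold tz
  rw [← Finset.sum_filter, Finset.sum_const, nsmul_eq_mul, mul_one]
  have : (range L).filter (fun p : ℕ => (p : ℤ) - L + 1 ≤ -(d : ℤ) ∧
      -(d : ℤ) ≤ p + m - 1) = range (L - d) := by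
    ext p
    rw [Finset.mem_filter, Finset.mem_range, Finset.mem_range]
    omega
  rw [this, Finset.card_range]
  ring

lemma geo_half (a b : ℕ) (h : a ≤ b) : ∑ i ∈ Ico a b, (1 / 2 : ℝ) ^ i =
    2 * (1 / 2) ^ a - 2 * (1 / 2) ^ b := by
  induction b, h using Nat.le_induction with
  | base => simp
  | succ b hb ih =>
    rw [Finset.sum_Ico_succ_top hb, ih, pow_succ]
    ring

lemma geo_half_le (a b : ℕ) : ∑ i ∈ Ico a b, (1 / 2 : ℝ) ^ i ≤ 2 * (1 / 2) ^ a := by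
  rcases le_total a b with h | h
  · rw [geo_half a b h]
    have : (0 : ℝ) ≤ 2 * (1 / 2) ^ b := by positivity
    linarith
  · rw [Finset.Ico_eq_empty_of_le h]
    simp

lemma geo_two (n : ℕ) : ∑ i ∈ range n, 2 * (2 : ℝ) ^ i ≤ 2 * 2 ^ n := by
  rw [← Finset.mul_sum]
  have := geom_sum_eq (by norm_num : (2 : ℝ) ≠ 1) n
  rw [this]
  have : (0 : ℝ) < 2 ^ n := by positivity
  linarith

/-- the averaged filter -/
noncomputable def af (m s J : ℕ) (k : ℤ) : ℝ := (1 / J : ℝ) * ∑ i ∈ Ico s (s + J), tz m (2 ^ i) k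

lemma af_hat_le (m s J D : ℕ) (hm : 1 ≤ m) (hms : m ≤ 2 ^ s) (hJ : 1 ≤ J) (hD : 2 ^ (s + J) ≤ D)
    (r : ℕ) {θ : ℝ} (h : |θ| ≤ 1 / 2)
    (hr : r = s + J ∨ (1 / 2) ^ (r + 2) < |θ|) :
    ‖∑ k ∈ Icc (-(D : ℤ)) (D + m), (af m s J k : ℂ) * ee k θ‖ ≤
      8 * 2 ^ r * (1 / 2) ^ (s - r) / J := by
  have hJ0 : (0 : ℝ) < J := by exact_mod_cast hJ
  obtain ⟨f, hf⟩ : ∃ f : ℕ → ℝ, f = fun i =>
    ‖∑ k ∈ Icc (-(D : ℤ)) (D + m), (tz m (2 ^ i) k : ℂ) * ee k θ‖ := ⟨_, rfl⟩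
  have h1 : ‖∑ k ∈ Icc (-(D : ℤ)) (D + m), (af m s J k : ℂ) * ee k θ‖ ≤
      (1 / J) * ∑ i ∈ Ico s (s + J), f i := by
    have e : ∑ k ∈ Icc (-(D : ℤ)) (D + m), (af m s J k : ℂ) * ee k θ =
        (1 / J : ℂ) * ∑ i ∈ Ico s (s + J), ∑ k ∈ Icc (-(D : ℤ)) (D + m),
          (tz m (2 ^ i) k : ℂ) * ee k θ := by
      rw [Finset.sum_comm, Finset.mul_sum]
      refine Finset.sum_congr rfl fun k _ => ?_
      unfold af
      push_cast
      rw [mul_assoc, Finset.sum_mul]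
    rw [e, norm_mul, norm_div, norm_one, Complex.norm_natCast, hf]
    exact mul_le_mul_of_nonneg_left (norm_sum_le _ _) (by positivity)
  have hpow : ∀ i ∈ Ico s (s + J), m ≤ 2 ^ i ∧ 2 ^ i ≤ D := by
    intro i hi
    rw [Finset.mem_Ico] at hi
    exact ⟨hms.trans (Nat.pow_le_pow_right (by norm_num) hi.1),
      (Nat.pow_le_pow_right (by norm_num) hi.2.le).trans hD⟩
  have hf1 : ∀ i ∈ Ico s (s + J), f i ≤ 2 * 2 ^ i := by
    intro i hi
    have := tz_hat_le m (2 ^ i) D hm (hpow i hi).1 (hpow i hi).2 θ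
    rw [hf]
    push_cast at this
    exact this
  have hf2 : (1 / 2) ^ (r + 2) < |θ| → ∀ i ∈ Ico s (s + J), f i ≤ 4 * 4 ^ r * (1 / 2) ^ i := by
    intro hθ i hi
    have hpos : (0 : ℝ) < (1 / 2) ^ (r + 2) := by positivity
    have hθ0 : θ ≠ 0 := by
      intro h0
      rw [h0, abs_zero] at hθ
      linarith
    have h2 := tz_hat_le' m (2 ^ i) D hm Nat.one_le_two_pow (hpow i hi).2 hθ0 h
    rw [hf]
    refine h2.trans ?_
    push_cast
    have h3 : 1 / (4 * θ ^ 2) ≤ 4 * 4 ^ r := by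
      rw [div_le_iff₀ (by positivity)]
      have h4 : ((1 / 2 : ℝ) ^ (r + 2)) ^ 2 ≤ θ ^ 2 := by
        rw [← sq_abs θ]
        exact pow_le_pow_left₀ hpos.le hθ.le 2
      have h5 : ((1 / 2 : ℝ) ^ (r + 2)) ^ 2 * (16 * 4 ^ r) = 1 := by
        have : (4 : ℝ) ^ r = (2 ^ r) ^ 2 := by rw [← pow_mul, mul_comm, pow_mul]; norm_num
        rw [this, pow_add, div_pow]
        have : (0 : ℝ) < 2 ^ r := by positivity
        field_simp
        norm_num
      have h6 : (0 : ℝ) < 4 ^ r := by positivity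
      nlinarith
    rw [div_eq_mul_inv]
    have h7 : ((2 : ℝ) ^ i)⁻¹ = (1 / 2) ^ i := by rw [one_div, inv_pow]
    rw [h7]
    exact mul_le_mul_of_nonneg_right h3 (by positivity)
  have hmain : ∑ i ∈ Ico s (s + J), f i ≤ 8 * 2 ^ r * (1 / 2) ^ (s - r) := by
    rcases lt_or_ge r s with hrs | hrs
    · have hθ : (1 / 2) ^ (r + 2) < |θ| := by
        rcases hr with hr | hr
        · omega
        · exact hr
      calc ∑ i ∈ Ico s (s + J), f i ≤ ∑ i ∈ Ico s (s + J), 4 * 4 ^ r * (1 / 2 : ℝ) ^ i :=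
            Finset.sum_le_sum (hf2 hθ)
        _ = 4 * 4 ^ r * ∑ i ∈ Ico s (s + J), (1 / 2 : ℝ) ^ i := by rw [Finset.mul_sum]
        _ ≤ 4 * 4 ^ r * (2 * (1 / 2) ^ s) :=
            mul_le_mul_of_nonneg_left (geo_half_le _ _) (by positivity)
        _ = 8 * 2 ^ r * (1 / 2) ^ (s - r) := by
            obtain ⟨d, rfl⟩ := Nat.exists_eq_add_of_lt hrs
            have e1 : r + d + 1 - r = d + 1 := by omega
            rw [e1]
            have : (4 : ℝ) ^ r = (2 ^ r) ^ 2 := by rw [← pow_mul, mul_comm, pow_mul]; norm_num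
            rw [this, add_assoc, pow_add (1 / 2 : ℝ) r (d + 1), one_div, inv_pow, inv_pow]
            have : (0 : ℝ) < 2 ^ r := by positivity
            field_simp
            ring
    · rw [Nat.sub_eq_zero_of_le hrs, pow_zero, mul_one]
      have h2 : ∑ i ∈ Ico s (s + J), f i ≤ ∑ i ∈ range (r + 1), 2 * (2 : ℝ) ^ i +
          ∑ i ∈ Ico (r + 1) (s + J), 4 * 4 ^ r * (1 / 2 : ℝ) ^ i := by
        have e : Ico s (s + J) = (Ico s (s + J)).filter (fun i => i < r + 1) ∪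
            (Ico s (s + J)).filter (fun i => ¬ i < r + 1) :=
          (Finset.filter_union_filter_not_eq _ _).symm
        rw [e, Finset.sum_union (Finset.disjoint_filter_filter_not _ _ _)]
        apply add_le_add
        · calc ∑ i ∈ (Ico s (s + J)).filter (fun i => i < r + 1), f i ≤
              ∑ i ∈ (Ico s (s + J)).filter (fun i => i < r + 1), 2 * (2 : ℝ) ^ i :=
                Finset.sum_le_sum fun i hi => hf1 i (Finset.mem_filter.mp hi).1
            _ ≤ ∑ i ∈ range (r + 1), 2 * (2 : ℝ) ^ i := by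
                apply Finset.sum_le_sum_of_subset_of_nonneg
                · intro i hi
                  rw [Finset.mem_filter] at hi
                  exact Finset.mem_range.mpr hi.2
                · intro i _ _
                  positivity
        · have e2 : (Ico s (s + J)).filter (fun i => ¬ i < r + 1) = Ico (r + 1) (s + J) := by
            ext i
            rw [Finset.mem_filter, Finset.mem_Ico, Finset.mem_Ico]
            omega
          rw [e2]
          rcases hr with hr | hr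
          · rw [Finset.Ico_eq_empty_of_le (by omega)]
            simp
          · apply Finset.sum_le_sum
            intro i hi
            rw [Finset.mem_Ico] at hi
            exact hf2 hr i (Finset.mem_Ico.mpr ⟨by omega, hi.2⟩)
      refine h2.trans ?_
      have h3 := geo_two (r + 1)
      have h4 : ∑ i ∈ Ico (r + 1) (s + J), 4 * 4 ^ r * (1 / 2 : ℝ) ^ i ≤ 4 * 2 ^ r := by
        rw [← Finset.mul_sum]
        refine (mul_le_mul_of_nonneg_left (geo_half_le _ _) (by positivity)).trans (le_of_eq ?_)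
        have : (4 : ℝ) ^ r = (2 ^ r) ^ 2 := by rw [← pow_mul, mul_comm, pow_mul]; norm_num
        rw [this, pow_succ, one_div, inv_pow]
        have : (0 : ℝ) < 2 ^ r := by positivity
        field_simp
        ring
      rw [pow_succ] at h3
      linarith
  refine h1.trans ?_
  rw [mul_comm, mul_one_div]
  exact div_le_div_of_nonneg_right hmain hJ0.le

end Pool.Agent.E8helper56.RG
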